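import Pool.Agent.helper14.NTN.Asm
import Pool.Agent.helper32.RH.RhoQ
import Pool.Agent.helper3.NA.StepH2
import Pool.Agent.helper3.NA.BWK

/-!
# MP_c8d30a, exponent 12, Part II: the language of coloured tokens, coupled pairs and mu-defects;
the effect of the moves RHO on them
-/

set_option autoImplicit false

namespace NP

open NTH Equiv NTS
open Pool.Agent.helper32.RH (RTs MvO Mvd MvQ MvdQ Col ColQ RHO' RHOQ')

variable {Ω : Type} [DecidableEq Ω] {p : Ω → Ω} {s s' : St Ω} {f : Ω}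

/-- a coloured token. -/
def Cd (p : Ω → Ω) (s : St Ω) (t : Ω) : Prop := NA.Red p s t ∨ NA.Blu p s t

/-- a mu-defect at `z`. -/
def MD (p : Ω → Ω) (s : St Ω) (z : Ω) : Prop := (z ∈ s.1 ∧ NA.mu p s z ∈ s.1) ∨ (z ∈ s.2 ∧ NA.mu p s z ∈ s.2)

/-- a coupled pair: `u` is coloured, `v` is the token before its partner. -/
def Cp (p : Ω → Ω) (s : St Ω) (u v : Ω) : Prop := Cd p s u ∧ NA.pd s (p u) = v

/-- the letter of `u` can walk: the other letters have both colours. -/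
def Fr (p : Ω → Ω) (s : St Ω) (u : Ω) : Prop :=
  (∃ d, NA.Red p s d ∧ d ≠ u ∧ d ≠ p u) ∧ (∃ d, NA.Blu p s d ∧ d ≠ u ∧ d ≠ p u)

/-- the positions of a walk. -/
def wk (p m : Ω → Ω) : ℕ → Ω × Ω → Ω × Ω
  | 0, a => a
  | n + 1, a => wk p m n (p a.2, m a.1)

/-- the walk has to stop. -/
def Stop (p : Ω → Ω) (f : Ω) (s : St Ω) (a b : Ω) : Prop := Cd p s (NA.sc s a) ∨ Cd p s b ∨ b = f ∨ b = p f

/-! ### simple facts -/

theorem dj (hw : WF p s) {a : Ω} (ha : a ∈ s.1) (hb : a ∈ s.2) : False := (List.nodup_append.1 hw.nd).2.2 _ ha _ hb rfl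

theorem cas (hw : WF p s) {a : Ω} (ha : a ∈ s.1 ∨ a ∈ s.2) : p a ∈ s.1 ∨ p a ∈ s.2 := by
  have := hw.cl a (List.mem_append.2 ha)
  exact List.mem_append.1 this

theorem Cd.mem (h : Cd p s f) : f ∈ s.1 ∨ f ∈ s.2 := by
  rcases h with h | h
  · exact Or.inl h.1
  · exact Or.inr h.1

theorem Cd.pr (hw : WF p s) {t : Ω} (h : Cd p s t) : Cd p s (p t) := by
  rcases h with h | h
  · exact Or.inl ⟨h.2, by rw [hw.inv]; exact h.1⟩
  · exact Or.inr ⟨h.2, by rw [hw.inv]; exact h.1⟩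

theorem Cd.p_iff (hw : WF p s) {t : Ω} : Cd p s (p t) ↔ Cd p s t := by
  refine ⟨fun h => ?_, fun h => h.pr hw⟩
  have := h.pr hw
  rwa [hw.inv] at this

theorem not_cd (hw : WF p s) {t : Ω} (ht : t ∈ s.1 ∨ t ∈ s.2) (h : ¬ Cd p s t) : (t ∈ s.1 ∧ p t ∈ s.2) ∨ (t ∈ s.2 ∧ p t ∈ s.1) := by
  rcases ht with ht | ht
  · rcases cas hw (Or.inl ht) with h1 | h1
    · exact absurd (Or.inl ⟨ht, h1⟩) h
    · exact Or.inl ⟨ht, h1⟩
  · rcases cas hw (Or.inr ht) with h1 | h1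
    · exact Or.inr ⟨ht, h1⟩
    · exact absurd (Or.inr ⟨ht, h1⟩) h

theorem cd_iff (hw : WF p s) {t : Ω} : Cd p s t ↔ (t ∈ s.1 ∨ t ∈ s.2) ∧ (t ∈ s.1 ↔ p t ∈ s.1) := by
  constructor
  · rintro (h | h)
    · exact ⟨Or.inl h.1, iff_of_true h.1 h.2⟩
    · exact ⟨Or.inr h.1, iff_of_false (fun h1 => dj hw h1 h.1) (fun h1 => dj hw h1 h.2)⟩
  · rintro ⟨h | h, h1⟩
    · exact Or.inl ⟨h, h1.1 h⟩
    · rcases cas hw (Or.inr h) with h2 | h2
      · exact absurd h (fun h3 => dj hw (h1.2 h2) h3)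
      · exact Or.inr ⟨h, h2⟩

theorem sc_mem (hw : WF p s) {t : Ω} (ht : t ∈ s.1 ∨ t ∈ s.2) : NA.sc s t ∈ s.1 ∨ NA.sc s t ∈ s.2 := by
  rcases ht with ht | ht
  · exact Or.inl ((NA.sc_mem_A hw.nd).2 ht)
  · exact Or.inr ((NA.sc_mem_B hw.nd).2 ht)

theorem pd_mem (hw : WF p s) {t : Ω} (ht : t ∈ s.1 ∨ t ∈ s.2) : NA.pd s t ∈ s.1 ∨ NA.pd s t ∈ s.2 := by
  rcases ht with ht | ht
  · exact Or.inl ((NA.pd_mem_A hw.nd).2 ht)
  · exact Or.inr ((NA.pd_mem_B hw.nd).2 ht)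

theorem mu_mem (hw : WF p s) {t : Ω} (ht : t ∈ s.1 ∨ t ∈ s.2) : NA.mu p s t ∈ s.1 ∨ NA.mu p s t ∈ s.2 := by
  rw [NA.mu_eq_pd]
  exact pd_mem hw (cas hw (sc_mem hw ht))

/-- the mu-defect at `z` is the letter of the successor. -/
theorem md_iff (hw : WF p s) {z : Ω} : MD p s z ↔ Cd p s (NA.sc s z) := by
  unfold MD Cd NA.Red NA.Blu
  rw [NA.mu_eq_pd, NA.pd_mem_A hw.nd, NA.pd_mem_B hw.nd, NA.sc_mem_A hw.nd, NA.sc_mem_B hw.nd]

theorem MD.mu (hw : WF p s) {z : Ω} (h : MD p s z) : MD p s (NA.mu p s z) := by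
  unfold MD at h ⊢
  rw [NA.mu_mu hw.inv]
  tauto

theorem md_mu_iff (hw : WF p s) {z : Ω} : MD p s (NA.mu p s z) ↔ MD p s z := by
  refine ⟨fun h => ?_, fun h => h.mu hw⟩
  have := h.mu hw
  rwa [NA.mu_mu hw.inv] at this

/-- the other direction of a coupled pair. -/
theorem Cp.flip (hw : WF p s) {u v : Ω} (h : Cp p s u v) : Cp p s (p u) (NA.mu p s v) := by
  refine ⟨h.1.pr hw, ?_⟩
  rw [← h.2, NA.mu_pd]

theorem Cp.md (hw : WF p s) {u v : Ω} (h : Cp p s u v) : MD p s v := by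
  rw [md_iff hw, ← h.2, NA.sc_pd]
  exact h.1.pr hw

theorem Cp.vm (hw : WF p s) {u v : Ω} (h : Cp p s u v) : v ∈ s.1 ∨ v ∈ s.2 := by
  rw [← h.2]
  exact pd_mem hw (h.1.pr hw).mem

/-- the second token of a coupled pair is in the same word. -/
theorem Cp.sdA (hw : WF p s) {u v : Ω} (h : Cp p s u v) : v ∈ s.1 ↔ u ∈ s.1 := by
  rw [← h.2, NA.pd_mem_A hw.nd]
  exact ((cd_iff hw).1 h.1).2.symm

theorem Cp.sdB (hw : WF p s) {u v : Ω} (h : Cp p s u v) : v ∈ s.2 ↔ u ∈ s.2 := by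
  rw [← h.2, NA.pd_mem_B hw.nd]
  rcases h.1 with h1 | h1
  · exact iff_of_false (fun h2 => dj hw h1.2 h2) (fun h2 => dj hw h1.1 h2)
  · exact iff_of_true h1.2 h1.1

/-- a word with a coloured letter has no fixed token. -/
theorem sc_ne (hw : WF p s) {u t : Ω} (h : Cd p s u) (ht : t ∈ s.1 ↔ u ∈ s.1) (hm : t ∈ s.1 ∨ t ∈ s.2) : NA.sc s t ≠ t := by
  have key : ∀ (l : List Ω), l.Nodup → ∀ a b t, a ∈ l → b ∈ l → a ≠ b → t ∈ l → List.formPerm l t ≠ t := by
    intro l hl a b t ha hb hab ht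
    rw [List.formPerm_apply_mem_ne_self_iff _ hl _ ht]
    by_contra hlt
    have h1 : l.length ≤ 1 := by omega
    match l, h1 with
    | [], _ => simp at ha
    | [c], _ =>
      simp only [List.mem_singleton] at ha hb
      exact hab (ha.trans hb.symm)
  have hn := List.nodup_append.1 hw.nd
  rcases h with h | h
  · have h1 : t ∈ s.1 := ht.2 h.1
    rw [NA.sc_A hw.nd h1]
    exact key _ hn.1 u (p u) t h.1 h.2 (hw.ne u).symm h1
  · have h1 : t ∈ s.2 := by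
      rcases hm with h1 | h1
      · exact (dj hw (ht.1 h1) h.1).elim
      · exact h1
    rw [NA.sc_B hw.nd h1]
    exact key _ hn.2.1 u (p u) t h.1 h.2 (hw.ne u).symm h1

/-! ### the number of coloured tokens -/

instance (t : Ω) : Decidable (Cd p s t) := by unfold Cd NA.Red NA.Blu; infer_instance

/-- the coloured tokens. -/
def CS (p : Ω → Ω) (s : St Ω) : Finset Ω := (s.1 ++ s.2).toFinset.filter (fun z => Cd p s z)

theorem mem_CS {z : Ω} : z ∈ CS p s ↔ Cd p s z := by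
  unfold CS
  rw [Finset.mem_filter, List.mem_toFinset, List.mem_append]
  exact ⟨fun h => h.2, fun h => ⟨h.mem, h⟩⟩

theorem D2_card (hw : WF p s) : D2 p s = (CS p s).card := by
  classical
  have hn := List.nodup_append.1 hw.nd
  have e : CS p s = (s.1.filter (fun t => decide (p t ∈ s.1))).toFinset ∪ (s.2.filter (fun t => decide (p t ∈ s.2))).toFinset := by
    ext z
    rw [mem_CS, Finset.mem_union, List.mem_toFinset, List.mem_toFinset, List.mem_filter, List.mem_filter]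
    simp only [decide_eq_true_eq]
    exact Iff.rfl
  have hd : Disjoint (s.1.filter (fun t => decide (p t ∈ s.1))).toFinset (s.2.filter (fun t => decide (p t ∈ s.2))).toFinset := by
    rw [Finset.disjoint_left]
    intro z h1 h2
    rw [List.mem_toFinset, List.mem_filter] at h1 h2
    exact dj hw h1.1 h2.1
  rw [e, Finset.card_union_of_disjoint hd, List.toFinset_card_of_nodup (hn.1.filter _), List.toFinset_card_of_nodup (hn.2.1.filter _)]
  unfold D2
  rw [List.countP_eq_length_filter, List.countP_eq_length_filter]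
  have k1 : ∀ (l m : List Ω) (i j : ∀ t, Decidable (p t ∈ m)), (l.filter (fun t => @decide (p t ∈ m) (i t))).length =
      (l.filter (fun t => @decide (p t ∈ m) (j t))).length := by
    intro l m i j
    have : i = j := by
      funext t
      exact Subsingleton.elim _ _
    rw [this]
  exact congrArg₂ (· + ·) (k1 _ _ _ _) (k1 _ _ _ _)

/-! ### the permutation of RHO -/

/-- the permutation of RHO. -/
def Pi6 (p : Ω → Ω) (t x y : Ω) : Perm Ω := swap (p y) (p x) * (swap t y * (swap (p y) (p t) * swap t x))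

/-- the six tokens. -/
def six (p : Ω → Ω) (t x y : Ω) : Fin 6 → Ω := ![t, x, y, p t, p x, p y]

theorem six_inj (hinv : ∀ a, p (p a) = a) (hne : ∀ a, p a ≠ a) {t x y : Ω} (tx : t ≠ x) (tx' : t ≠ p x) (ty : t ≠ y) (ty' : t ≠ p y)
    (xy : x ≠ y) (xy' : x ≠ p y) : Function.Injective (six p t x y) := by
  have h1 : ∀ a b, p a = p b → a = b := fun a b h => by rw [← hinv a, h, hinv]
  have h2 : ∀ a b, a = p b → p a = b := fun a b h => by rw [h, hinv]
  apply NTS.inj6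
  simp only [List.nodup_cons, List.mem_cons, List.not_mem_nil, or_false, not_or, List.nodup_nil, and_true]
  refine ⟨⟨tx, ty, (hne t).symm, tx', ty'⟩, ⟨xy, ?_, (hne x).symm, xy'⟩, ⟨?_, ?_, (hne y).symm⟩, ⟨?_, ?_⟩, ?_⟩
  · exact fun h => tx' (by rw [h, hinv])
  · exact fun h => ty' (by rw [h, hinv])
  · exact fun h => xy' (by rw [h, hinv])
  · exact fun h => tx (h1 _ _ h)
  · exact fun h => ty (h1 _ _ h)
  · exact ⟨fun h => xy (h1 _ _ h), not_false⟩

theorem Pi6_prod (t x y : Ω) : Pi6 p t x y =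
    (([(5, 4), (0, 2), (5, 3), (0, 1)] : List (Fin 6 × Fin 6)).map (fun q => swap (six p t x y q.1) (six p t x y q.2))).prod := by
  simp [Pi6, six]

theorem Pi6_val {t x y : Ω} (hi : Function.Injective (six p t x y)) (i : Fin 6) :
    Pi6 p t x y (six p t x y i) = six p t x y (![1, 2, 0, 4, 5, 3] i) := by
  rw [Pi6_prod, NTS.swaps_apply _ hi]
  congr 1
  revert i
  decide

theorem Pi6_fix {t x y z : Ω} (h : ∀ i, z ≠ six p t x y i) : Pi6 p t x y z = z := by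
  rw [Pi6_prod, NTS.swaps_fix _ _ _ h]

theorem Pi6_comm (hinv : ∀ a, p (p a) = a) {t x y : Ω} (hi : Function.Injective (six p t x y)) (z : Ω) :
    Pi6 p t x y (p z) = p (Pi6 p t x y z) := by
  have hp : ∀ i : Fin 6, p (six p t x y i) = six p t x y (![3, 4, 5, 0, 1, 2] i) := by
    intro i
    fin_cases i <;> simp [six, hinv]
  by_cases hz : ∃ i : Fin 6, z = six p t x y i
  · obtain ⟨i, rfl⟩ := hz
    rw [hp, Pi6_val hi, Pi6_val hi, hp]
    congr 1
    revert i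
    decide
  · push Not at hz
    rw [Pi6_fix hz, Pi6_fix]
    intro i h
    apply hz (![3, 4, 5, 0, 1, 2] i)
    rw [← hp, ← h, hinv]

theorem mu_of_comm {π : Perm Ω} (h : NA.sc s' = π * NA.sc s) (hc : ∀ z, π (p z) = p (π z)) : NA.mu p s' = NA.mu p s := by
  funext z
  unfold NA.mu
  rw [h, Equiv.symm_apply_eq]
  rw [Perm.mul_apply, Perm.mul_apply, ← hc, Equiv.apply_symm_apply]

theorem pd_of_val {π : Perm Ω} (h : NA.sc s' = π * NA.sc s) {a b : Ω} (hc : π a = b) : NA.pd s' b = NA.pd s a := by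
  unfold NA.pd
  rw [h, Equiv.symm_apply_eq, Perm.mul_apply, Equiv.apply_symm_apply, hc]

/-! ### the result of RHO -/

section mvd
variable {t x y : Ω}

theorem six_of (h : MvO p s f t x y) : Function.Injective (six p t x y) :=
  six_inj h.wf.inv h.wf.ne h.tx h.tx' h.ty h.ty' h.xy h.xy'

theorem sc_of (h' : Mvd p s f t x y s') : NA.sc s' = Pi6 p t x y * NA.sc s := by
  rw [h'.sc]
  unfold Pi6
  simp only [mul_assoc]

theorem mvd_mu (h : MvO p s f t x y) (h' : Mvd p s f t x y s') : NA.mu p s' = NA.mu p s :=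
  mu_of_comm (sc_of h') (Pi6_comm h.wf.inv (six_of h))

theorem mvd_pd_x (h : MvO p s f t x y) (h' : Mvd p s f t x y s') : NA.pd s' x = NA.pd s t :=
  pd_of_val (sc_of h') (Pi6_val (six_of h) 0)

theorem mvd_pd_y (h : MvO p s f t x y) (h' : Mvd p s f t x y s') : NA.pd s' y = t :=
  (pd_of_val (a := x) (b := y) (sc_of h') (Pi6_val (six_of h) 1)).trans (NA.pd_of_sc h.hx)

theorem mvd_pd_t (h : MvO p s f t x y) (h' : Mvd p s f t x y s') : NA.pd s' t = NA.pd s y :=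
  pd_of_val (sc_of h') (Pi6_val (six_of h) 2)

theorem mvd_pd_px (h : MvO p s f t x y) (h' : Mvd p s f t x y s') : NA.pd s' (p x) = p y :=
  (pd_of_val (a := p t) (b := p x) (sc_of h') (Pi6_val (six_of h) 3)).trans (NA.pd_of_sc h.hy)

theorem mvd_pd_py (h : MvO p s f t x y) (h' : Mvd p s f t x y s') : NA.pd s' (p y) = NA.pd s (p x) :=
  pd_of_val (sc_of h') (Pi6_val (six_of h) 4)

theorem mvd_pd_pt (h : MvO p s f t x y) (h' : Mvd p s f t x y s') : NA.pd s' (p t) = NA.pd s (p y) :=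
  pd_of_val (sc_of h') (Pi6_val (six_of h) 5)

theorem mvd_pd_o (h' : Mvd p s f t x y s') {z : Ω} (h1 : z ≠ t) (h2 : z ≠ x) (h3 : z ≠ y) (h4 : z ≠ p t) (h5 : z ≠ p x)
    (h6 : z ≠ p y) : NA.pd s' z = NA.pd s z := by
  apply pd_of_val (sc_of h')
  apply Pi6_fix
  intro i
  fin_cases i <;> simp [six, h1, h2, h3, h4, h5, h6]

theorem mvd_gp (h : MvO p s f t x y) (h' : Mvd p s f t x y s') (hr : ∃ o, NA.Red p s' o) (hb : ∃ o, NA.Blu p s' o) : GP p f s' := by
  refine ⟨h'.wf, h'.last, ?_, hr, hb⟩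
  rw [h'.m1]
  left
  refine ⟨h.fA, h.tf'.symm, ?_⟩
  intro h1
  apply h.yf
  rw [← h.wf.inv y, ← h1, h.wf.inv]

end mvd

end NP
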