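import Pool.Agent.helper3.NP.To
import Pool.Agent.helper32.RH.RhoM
import Pool.Agent.helper32.RH.Env

/-!
# MP_c8d30a, exponent 12, Part I, D = 2: the two coloured letters reach a near state or the state `Star`
-/

set_option autoImplicit false

namespace NP

open NTH Equiv NTS
open Pool.Agent.helper32.RH (RTs MvO Mvd Col ColC ColM RHO' RHOC' RHOM')

variable {Ω : Type} [DecidableEq Ω] {p : Ω → Ω} {s s' : St Ω} {f : Ω}

/-- three letters, an exact contact which can be left. -/
def Star (p : Ω → Ω) (f : Ω) (s : St Ω) : Prop :=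
  D2 p s = 6 ∧ ∃ t, Cd p s t ∧ Cd p s (NA.sc s t) ∧ NA.sc s t ≠ p t ∧ (NA.pd s t = p t ∨ ¬ Stop p f s (p t) (NA.pd s t))

/-- a coloured token near to a defect of its own, of another letter, or to the wall. -/
def Near (p : Ω → Ω) (f : Ω) (s : St Ω) : Prop :=
  ∃ x, Cd p s x ∧ (NA.sc s x = p x ∨ Cd p s (NA.mu p s x) ∨ NA.mu p s x = f ∨ NA.mu p s x = p f)

/-- exactly two coloured letters. -/
theorem two (hg : GP p f s) (hD : D2 p s = 4) {x z : Ω} (hx : NA.Red p s x) (hz : NA.Blu p s z) {t : Ω} (ht : Cd p s t) :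
    t = x ∨ t = p x ∨ t = z ∨ t = p z := by
  have hw := hg.wf
  by_contra hcon
  push Not at hcon
  obtain ⟨n1, n2, n3, n4⟩ := hcon
  have e : ({t, x, p x, z, p z} : Finset Ω) ⊆ CS p s := by
    intro w hw'
    simp only [Finset.mem_insert, Finset.mem_singleton] at hw'
    rw [mem_CS]
    have c1 : Cd p s x := Or.inl hx
    have c2 : Cd p s z := Or.inr hz
    rcases hw' with rfl | rfl | rfl | rfl | rfl
    exacts [ht, c1, c1.pr hw, c2, c2.pr hw]
  have hcard : ({t, x, p x, z, p z} : Finset Ω).card = 5 := by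
    have nd : [t, x, p x, z, p z].Nodup := by
      simp only [List.nodup_cons, List.mem_cons, List.not_mem_nil, or_false, not_or, List.nodup_nil, and_true, not_false_eq_true]
      refine ⟨⟨n1, n2, n3, n4⟩, ⟨(hw.ne x).symm, ?_, ?_⟩, ⟨?_, ?_⟩, (hw.ne z).symm⟩
      · rintro rfl; exact dj hw hx.1 hz.1
      · intro h; exact dj hw hx.1 (h ▸ hz.2)
      · intro h; exact dj hw hx.2 (h ▸ hz.1)
      · intro h; exact dj hw hx.2 (h ▸ hz.2)
    have e2 : ({t, x, p x, z, p z} : Finset Ω) = [t, x, p x, z, p z].toFinset := by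
      ext w
      simp
    rw [e2, List.toFinset_card_of_nodup nd]
    rfl
  have := Finset.card_le_card e
  rw [hcard, ← D2_card hw, hD] at this
  omega

/-- the successor after a move. -/
theorem mvd_sc {t x y : Ω} (h' : Mvd p s f t x y s') (z : Ω) : NA.sc s' z = Pi6 p t x y (NA.sc s z) := by
  rw [sc_of h', Perm.mul_apply]

section vals
variable {t x y : Ω}

theorem v_t (h : MvO p s f t x y) : Pi6 p t x y t = x := Pi6_val (six_of h) 0

theorem v_x (h : MvO p s f t x y) : Pi6 p t x y x = y := Pi6_val (six_of h) 1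

theorem v_y (h : MvO p s f t x y) : Pi6 p t x y y = t := Pi6_val (six_of h) 2

theorem v_pt (h : MvO p s f t x y) : Pi6 p t x y (p t) = p x := Pi6_val (six_of h) 3

theorem v_px (h : MvO p s f t x y) : Pi6 p t x y (p x) = p y := Pi6_val (six_of h) 4

theorem v_py (h : MvO p s f t x y) : Pi6 p t x y (p y) = p t := Pi6_val (six_of h) 5

theorem v_o {z : Ω} (h1 : z ≠ t) (h2 : z ≠ x) (h3 : z ≠ y) (h4 : z ≠ p t) (h5 : z ≠ p x) (h6 : z ≠ p y) :
    Pi6 p t x y z = z := by
  apply Pi6_fix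
  intro i
  fin_cases i <;> simp [six, h1, h2, h3, h4, h5, h6]

end vals

/-- a coloured token `u` and a mixed token `v` are flipped. -/
theorem flip2 (hw : WF p s) (wf : WF p s') {u v : Ω} (hu : Cd p s u) (hv : v ∈ s.1 ∨ v ∈ s.2) (h2 : ¬ Cd p s v)
    (hT : ∀ z, (z ∈ s'.1 ∨ z ∈ s'.2) ↔ (z ∈ s.1 ∨ z ∈ s.2))
    (hA' : ∀ z, (z ∈ s.1 ∨ z ∈ s.2) → (z ∈ s'.1 ↔ ((z ∈ s.1 ∧ z ≠ u ∧ z ≠ v) ∨ (¬ z ∈ s.1 ∧ (z = u ∨ z = v))))) :
    (∀ z, Cd p s' z ↔ (Cd p s z ∧ z ≠ u ∧ z ≠ p u) ∨ z = v ∨ z = p v) ∧ D2 p s' = D2 p s := by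
  have cd : ∀ z, Cd p s' z ↔ (Cd p s z ∧ z ≠ u ∧ z ≠ p u) ∨ z = v ∨ z = p v := by
    intro z
    rw [cd_iff wf, cd_iff hw, hT]
    exact def_flip (T := fun z => z ∈ s.1 ∨ z ∈ s.2) (A := fun z => z ∈ s.1) (A' := fun z => z ∈ s'.1) hw.inv hw.ne
      (fun z hz => cas hw hz) hA' ((cd_iff hw).1 hu).1 hv ((cd_iff hw).1 hu).2 (fun h3 => h2 ((cd_iff hw).2 ⟨hv, h3⟩)) z
  refine ⟨cd, ?_⟩
  rw [D2_card hw, D2_card wf]
  have e1 : CS p s' = insert v (insert (p v) ((CS p s \ {u, p u}))) := by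
    ext z
    rw [mem_CS, cd, Finset.mem_insert, Finset.mem_insert, Finset.mem_sdiff, mem_CS, Finset.mem_insert, Finset.mem_singleton]
    (first | grind | tauto)
  have e2 : ({u, p u} : Finset Ω) ⊆ CS p s := by
    intro z hz
    rw [Finset.mem_insert, Finset.mem_singleton] at hz
    rw [mem_CS]
    rcases hz with rfl | rfl
    · exact hu
    · exact hu.pr hw
  have n1 : p v ∉ CS p s \ {u, p u} := by
    rw [Finset.mem_sdiff, mem_CS, Cd.p_iff hw]
    (first | grind | tauto)
  have n2 : v ∉ insert (p v) (CS p s \ {u, p u}) := by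
    rw [Finset.mem_insert, Finset.mem_sdiff, mem_CS]
    have := hw.ne v
    (first | grind | tauto)
  have n3 : ({u, p u} : Finset Ω).card = 2 := Finset.card_pair (hw.ne u).symm
  have n4 := Finset.card_le_card e2
  rw [e1, Finset.card_insert_of_notMem n2, Finset.card_insert_of_notMem n1, Finset.card_sdiff_of_subset e2, n3]
  omega

/-- a mixed token `v` changes its side: a new coloured letter. -/
theorem flip1 (hw : WF p s) (wf : WF p s') {v : Ω} (hv : v ∈ s.1 ∨ v ∈ s.2) (h2 : ¬ Cd p s v)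
    (hT : ∀ z, (z ∈ s'.1 ∨ z ∈ s'.2) ↔ (z ∈ s.1 ∨ z ∈ s.2))
    (hA' : ∀ z, (z ∈ s.1 ∨ z ∈ s.2) → (z ∈ s'.1 ↔ ((z ∈ s.1 ∧ z ≠ v) ∨ (¬ z ∈ s.1 ∧ z = v)))) :
    (∀ z, Cd p s' z ↔ Cd p s z ∨ z = v ∨ z = p v) ∧ D2 p s' = D2 p s + 2 := by
  have hp := hw.inv
  have cd : ∀ z, Cd p s' z ↔ Cd p s z ∨ z = v ∨ z = p v := by
    intro z
    rw [cd_iff wf, cd_iff hw, hT]
    have hnv := hw.ne v
    have hpv := cas hw hv
    have hv2 : ¬ (v ∈ s.1 ↔ p v ∈ s.1) := fun h3 => h2 ((cd_iff hw).2 ⟨hv, h3⟩)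
    have a1 : v ∈ s'.1 ↔ ¬ v ∈ s.1 := by rw [hA' v hv]; simp
    have a2 : p v ∈ s'.1 ↔ p v ∈ s.1 := by rw [hA' _ hpv]; simp [hnv]
    by_cases e1 : z = v
    · subst e1
      rw [a1, a2]
      (first | grind | tauto)
    by_cases e2 : z = p v
    · subst e2
      rw [hp, a1, a2]
      (first | grind | tauto)
    by_cases hz : z ∈ s.1 ∨ z ∈ s.2
    · have e3 : p z ≠ v := fun h => e2 (by rw [← h, hp])
      have a3 : z ∈ s'.1 ↔ z ∈ s.1 := by rw [hA' z hz]; simp [e1]
      have a4 : p z ∈ s'.1 ↔ p z ∈ s.1 := by rw [hA' _ (cas hw hz)]; simp [e3]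
      rw [a3, a4]
      simp [e1, e2]
    · simp [hz, e1, e2]
  refine ⟨cd, ?_⟩
  rw [D2_card hw, D2_card wf]
  have e1 : CS p s' = insert v (insert (p v) (CS p s)) := by
    ext z
    rw [mem_CS, cd, Finset.mem_insert, Finset.mem_insert, mem_CS]
    (first | grind | tauto)
  have n1 : p v ∉ CS p s := by
    rw [mem_CS, Cd.p_iff hw]
    exact h2
  have n2 : v ∉ insert (p v) (CS p s) := by
    rw [Finset.mem_insert, mem_CS]
    have := hw.ne v
    (first | grind | tauto)
  rw [e1, Finset.card_insert_of_notMem n2, Finset.card_insert_of_notMem n1]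

/-- the words of a move. -/
theorem mvd_T {t x y : Ω} (h : MvO p s f t x y) (h' : Mvd p s f t x y s') (z : Ω) : (z ∈ s'.1 ∨ z ∈ s'.2) ↔ (z ∈ s.1 ∨ z ∈ s.2) := by
  have := (h'.perm h).mem_iff (a := z)
  rwa [List.mem_append, List.mem_append] at this

/-- one move of the algorithm for `D = 2`. -/
theorem d2step (hg : GP p f s) (hD : D2 p s = 4) {x : Ω} (hx : NA.Red p s x) {n : ℕ} (hn : To (NA.sc s) (p x) (p f) n (NA.sc s x)) :
    Near p f s ∨
    (∃ s', RTs p 6 s s' ∧ GP p f s' ∧ (s'.1 ++ s'.2).Perm (s.1 ++ s.2) ∧ NA.mu p s' = NA.mu p s ∧ Star p f s') ∨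
    (∃ s', RTs p 6 s s' ∧ GP p f s' ∧ (s'.1 ++ s'.2).Perm (s.1 ++ s.2) ∧ NA.mu p s' = NA.mu p s ∧ D2 p s' = 4 ∧
      ∃ x' m, NA.Red p s' x' ∧ n = m + 1 ∧ To (NA.sc s') (p x') (p f) m (NA.sc s' x')) ∨
    (∃ s', RTs p 6 s s' ∧ GP p f s' ∧ (s'.1 ++ s'.2).Perm (s.1 ++ s.2) ∧ NA.mu p s' = NA.mu p s ∧ D2 p s' = 4 ∧ n ≠ 0 ∧
      ∃ m, NA.Red p s' x ∧ m ≤ n ∧ To (NA.sc s') (p x) (p f) m (NA.sc s' x) ∧
        ∀ j, To (NA.sc s) f f j (p (NA.sc s x)) → ∃ i, j = i + 1 ∧ To (NA.sc s') f f i (p (NA.sc s' x))) := by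
  have hw := hg.wf
  have hp := hw.inv
  obtain ⟨z, hz⟩ := hg.blu
  have hcx : Cd p s x := Or.inl hx
  have hcz : Cd p s z := Or.inr hz
  have hfB : f ∈ s.2 := List.mem_of_getLast? hg.last
  have hfA := hg.fA
  have T := fun {t : Ω} => two hg hD hx hz (t := t)
  have scA := fun {t : Ω} => NA.sc_mem_A hw.nd (a := t)
  have scB := fun {t : Ω} => NA.sc_mem_B hw.nd (a := t)
  have inj : ∀ a b, p a = p b → a = b := fun a b h => by rw [← hp a, h, hp]
  have hcf : ¬ Cd p s f := fun h => (h.nf hg) rfl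
  have hxne : NA.sc s x ≠ x := sc_ne hw hcx Iff.rfl (Or.inl hx.1)
  -- the case `n = 0`
  match n, hn with
  | 0, hn =>
    left
    exact ⟨x, hcx, Or.inl hn⟩
  | m + 1, hn =>
  obtain ⟨⟨hb1, hb2⟩, hm⟩ := hn
  set b := NA.sc s x with hbd
  have hbA : b ∈ s.1 := scA.2 hx.1
  have hbc : ¬ Cd p s b := by
    intro h
    rcases T h with e | e | e | e
    · exact hxne e
    · exact hb1 e
    · exact dj hw hbA (e ▸ hz.1)
    · exact dj hw hbA (e ▸ hz.2)
  have hbB : p b ∈ s.2 := by
    rcases not_cd hw (Or.inl hbA) hbc with h | h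
    · exact h.2
    · exact (dj hw hbA h.1).elim
  have hpbc : ¬ Cd p s (p b) := by rwa [Cd.p_iff hw]
  have hb'f : p b ≠ f := fun e => hb2 (by rw [← e, hp])
  set X := NA.sc s (p b) with hXd
  have hXB : X ∈ s.2 := scB.2 hbB
  have toM := fun {i : ℕ} {v : Ω} (h : To (NA.sc s) (p x) (p f) i v) => To.memA hw h hx.2
  have hTb : To (NA.sc s) (p x) (p f) (m + 1) b := ⟨⟨hb1, hb2⟩, hm⟩
  have hxpf : x ≠ p f := by
    intro e
    rw [e] at hcx
    exact hcf ((Cd.p_iff hw).1 hcx)
  have hTx : To (NA.sc s) (p x) (p f) (m + 2) x := ⟨⟨(hw.ne x).symm, hxpf⟩, hTb⟩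
  have hpxpf : p x ≠ p f := fun e => hcf (by
    rw [← inj _ _ e]
    exact hcx)
  have hpxf : p x ≠ f := fun e => dj hw hx.2 (e ▸ hfB)
  have hpbA : p b ∉ s.1 := fun h => dj hw h hbB
  have hXA : X ∉ s.1 := fun h => dj hw h hXB
  by_cases hXc : Cd p s X
  · -- (a) Theta
    right; right; left
    have hXb : NA.Blu p s X := by
      rcases hXc with h | h
      · exact (dj hw h.1 hXB).elim
      · exact h
    have hpXA : p X ∉ s.1 := fun h => dj hw h hXb.2
    have hmv : MvO p s f (p b) X (p x) := by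
      refine ⟨hw, hg.last, hfA, List.mem_append.2 (Or.inr hbB), hXd.symm, ?_, ?_, ?_, ?_, ?_, ?_, ?_, hb'f, ?_, hpxf, hpxpf⟩
      · rw [hp, hp]
      · exact fun e => hpbc (e ▸ hXc)
      · exact fun e => hpbc (e ▸ hXc.pr hw)
      · exact fun e => hpbc (e ▸ hcx.pr hw)
      · rw [hp]; exact fun e => hpbc (e ▸ hcx)
      · exact fun e => dj hw hx.2 (e ▸ hXB)
      · rw [hp]; exact fun e => dj hw hx.1 (e ▸ hXB)
      · exact fun e => dj hw hfA (e ▸ hbB)
    obtain ⟨s', r, h'⟩ := RHO' hmv (Col.hB hbB (by rw [hp]; exact hbA) hXb.2 hx.2)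
    have m1 : ∀ v, v ∈ s'.1 ↔ (v ∈ s.1 ∧ v ≠ x) ∨ v = p b := by
      intro v
      rw [h'.m1, hp]
      have : v ∈ s.1 → v ≠ p b := fun h e => hpbA (e ▸ h)
      have := hx.2
      (first | grind | tauto)
    have hbx : b ≠ x := hxne
    have hpbx : p b ≠ x := fun e => hpbA (e ▸ hx.1)
    have hpbpx : p b ≠ p x := fun e => hpbA (e ▸ hx.2)
    have hf2 := flip2 hw h'.wf (u := x) (v := p b) hcx (Or.inr hbB) hpbc (mvd_T hmv h') (by
      intro v hv
      rw [m1]
      by_cases e1 : v = x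
      · subst e1
        have := hx.1
        (first | grind | tauto)
      by_cases e2 : v = p b
      · subst e2
        (first | grind | tauto)
      · (first | grind | tauto))
    have hred' : NA.Red p s' b := ⟨(m1 b).2 (Or.inl ⟨hbA, hbx⟩), (m1 _).2 (Or.inr rfl)⟩
    have hblu' : NA.Blu p s' X := by
      have c1 : Cd p s' X := (hf2.1 X).2 (Or.inl ⟨hXc, fun e => hXA (e ▸ hx.1), fun e => hXA (e ▸ hx.2)⟩)
      rcases c1 with c1 | c1
      · exfalso
        rcases (m1 X).1 c1.1 with h | h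
        · exact hXA h.1
        · exact hpbc (h ▸ hXc)
      · exact c1
    refine ⟨s', r, mvd_gp hmv h' ⟨b, hred'⟩ ⟨X, hblu'⟩, h'.perm hmv, mvd_mu hmv h', hf2.2.trans hD, b, m, hred', rfl, ?_⟩
    refine To.re hm (fun i w hi hw' => ⟨fun e => ?_, fun e => ⟨?_, ?_⟩⟩)
    · rw [mvd_sc h', e, v_y hmv]
    · have hq := toM hw'
      rw [mvd_sc h']
      refine v_o (fun e1 => ?_) (fun e1 => ?_) e (fun e1 => ?_) (fun e1 => ?_) (fun e1 => ?_)
      · exact hpbA (e1 ▸ hq)
      · exact hXA (e1 ▸ hq)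
      · rw [hp] at e1
        rw [e1] at hw'
        have := To.uniq hw' hTb
        omega
      · exact hpXA (e1 ▸ hq)
      · rw [hp] at e1
        rw [e1] at hw'
        have := To.uniq hw' hTx
        omega
    · exact fun e1 => hpbA (e1 ▸ toM hw')
  · have hpXA : p X ∈ s.1 := by
      rcases not_cd hw (Or.inr hXB) hXc with h | h
      · exact (hXA h.1).elim
      · exact h.2
    by_cases hX2 : p X = NA.sc s b
    · -- (c) peel
      set c := NA.sc s b with hcd
      have hX3 : p c = X := by rw [← hX2, hp]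
      have hcc : ¬ Cd p s c := by rw [← hX2, Cd.p_iff hw]; exact hXc
      have hcA : c ∈ s.1 := scA.2 hbA
      have hcpx : c ≠ p x := fun e => hcc (e ▸ hcx.pr hw)
      set β := NA.pd s (p b) with hβd
      have hβB : β ∈ s.2 := (NA.pd_mem_B hw.nd).2 hbB
      have hsβ : NA.sc s β = p b := NA.sc_pd _ _
      have hmu : NA.mu p s x = β := by rw [NA.mu_eq_pd]
      by_cases hN : Cd p s β ∨ β = f
      · left
        refine ⟨x, hcx, Or.inr ?_⟩
        rw [hmu]
        (first | grind | tauto)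
      push Not at hN
      obtain ⟨hβc, hβf⟩ := hN
      right; right; right
      have hpβA : p β ∈ s.1 := by
        rcases not_cd hw (Or.inr hβB) hβc with h | h
        · exact (dj hw h.1 hβB).elim
        · exact h.2
      have hβA : β ∉ s.1 := fun h => dj hw h hβB
      have hβX : β ≠ X := by
        intro e
        -- the word `B` would be `b', X`
        have h1 : ∀ v, (v = p b ∨ v = X) → (NA.sc s v = p b ∨ NA.sc s v = X) := by
          rintro v (rfl | rfl)
          · exact Or.inr hXd.symm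
          · left
            rw [← e, hsβ]
        have h2 := closed_sc hw (S := fun v => v = p b ∨ v = X) (c := p b) (t := z) (Or.inl rfl) (Or.inr hbB) h1
          (fun h => (dj hw h hz.1).elim) (fun _ => hbB) (Or.inr hz.1)
        rcases h2 with h2 | h2
        · exact hpbc (h2 ▸ hcz)
        · exact hXc (h2 ▸ hcz)
      have hβb : β ≠ p b := by
        intro e
        have h1 : ∀ v, (v = p b) → (NA.sc s v = p b) := by
          rintro v rfl
          nth_rw 1 [← e]
          exact hsβ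
        have h2 := closed_sc hw (S := fun v => v = p b) (c := p b) (t := z) rfl (Or.inr hbB) h1
          (fun h => (dj hw h hz.1).elim) (fun _ => hbB) (Or.inr hz.1)
        exact hpbc (h2 ▸ hcz)
      have hbne : NA.sc s b ≠ b := sc_ne hw hcx ⟨fun _ => hx.1, fun _ => hbA⟩ (Or.inl hbA)
      have hmv : MvO p s f b c (p β) := by
        refine ⟨hw, hg.last, hfA, List.mem_append.2 (Or.inl hbA), hcd.symm, ?_, hbne.symm, ?_, ?_, ?_, ?_, ?_, ?_, hb2, ?_, ?_⟩
        · rw [hp, hsβ]
        · rw [hX3]; exact fun e => hXA (e ▸ hbA)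
        · exact fun e => hβb (by rw [e, hp])
        · rw [hp]; exact fun e => hβA (e ▸ hbA)
        · exact fun e => hβX (by rw [← hX3, e, hp])
        · rw [hp]; exact fun e => hβA (e ▸ hcA)
        · exact fun e => dj hw hbA (e ▸ hfB)
        · exact fun e => dj hw hpβA (e ▸ hfB)
        · exact fun e => hβf (inj _ _ e)
      obtain ⟨s', r, h', hs1, hs2⟩ := RHOM' hmv (ColM.a x z hbA hbB (by rw [hX3]; exact hXB) hpβA hx.1 hx.2 hz.1 hz.2)
      have hred' : NA.Red p s' x := ⟨(hs1 _).2 hx.1, (hs1 _).2 hx.2⟩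
      have hblu' : NA.Blu p s' z := ⟨(hs2 _).2 hz.1, (hs2 _).2 hz.2⟩
      have hcd' : ∀ v, Cd p s' v ↔ Cd p s v := by
        intro v
        unfold Cd NA.Red NA.Blu
        rw [hs1, hs1, hs2, hs2]
      have hD' : D2 p s' = 4 := by
        rw [← hD, D2_card hw, D2_card h'.wf]
        congr 1
        ext v
        rw [mem_CS, mem_CS, hcd']
      have hTc : To (NA.sc s) (p x) (p f) m c := hm
      have sx : NA.sc s' x = c := by
        rw [mvd_sc h', ← hbd, v_t hmv]
      have sb : NA.sc s' b = p β := by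
        rw [mvd_sc h', ← hcd, v_x hmv]
      have hpath := To.ins (S' := NA.sc s') (b := b) (q := p β) hTc hb1 hb2 sb (by
        intro i w hi hw'
        refine ⟨fun e => ?_, fun e => ?_⟩
        · rw [mvd_sc h', e, v_y hmv]
        · have hq := toM hw'
          rw [mvd_sc h']
          refine v_o (fun e1 => ?_) (fun e1 => ?_) e (fun e1 => ?_) (fun e1 => ?_) (fun e1 => ?_)
          · rw [e1] at hw'
            have := To.uniq hw' hTb
            omega
          · rw [e1] at hw'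
            have := To.uniq hw' hTc
            omega
          · exact hpbA (e1 ▸ hq)
          · rw [hX3] at e1
            exact hXA (e1 ▸ hq)
          · rw [hp] at e1
            exact hβA (e1 ▸ hq))
      refine ⟨s', r, mvd_gp hmv h' ⟨x, hred'⟩ ⟨z, hblu'⟩, h'.perm hmv, mvd_mu hmv h', hD', by omega, ?_⟩
      have hB : ∀ j, To (NA.sc s) f f j (p b) → ∃ i, j = i + 1 ∧ To (NA.sc s') f f i (p (NA.sc s' x)) := by
        intro j hj
        match j, hj with
        | 0, hj => exact (hb'f hj).elim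
        | j + 1, hj =>
          refine ⟨j, rfl, ?_⟩
          have hjX : To (NA.sc s) f f j X := hj.2
          have hjβ : To (NA.sc s) f f (j + 2) β := ⟨⟨hβf, hβf⟩, by rw [hsβ]; exact hj⟩
          rw [sx, hX3]
          refine To.congr hjX (fun i w hi hw' => ?_)
          have hq : NA.sc s w ∈ s.2 := To.memB hw hw' hfB
          rw [mvd_sc h']
          refine v_o (fun e1 => ?_) (fun e1 => ?_) (fun e1 => ?_) (fun e1 => ?_) (fun e1 => ?_) (fun e1 => ?_)
          · exact dj hw hbA (e1 ▸ hq)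
          · exact dj hw hcA (e1 ▸ hq)
          · exact dj hw hpβA (e1 ▸ hq)
          · rw [e1] at hw'
            have := To.uniq hw' hj
            omega
          · rw [e1, hX3] at hw'
            have := To.uniq hw' hjX
            omega
          · rw [e1, hp] at hw'
            have := To.uniq hw' hjβ
            omega
      rcases hpath with h1 | h1
      · exact ⟨m, hred', by omega, by rw [sx]; exact h1, hB⟩
      · exact ⟨m + 1, hred', le_refl _, by rw [sx]; exact h1, hB⟩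
    · -- (b) creation
      right; left
      have hbx : b ≠ x := hxne
      have hmv : MvO p s f (p b) X (p x) := by
        refine ⟨hw, hg.last, hfA, List.mem_append.2 (Or.inr hbB), hXd.symm, ?_, ?_, ?_, ?_, ?_, ?_, ?_, hb'f, ?_, hpxf, hpxpf⟩
        · rw [hp, hp]
        · intro e
          exact (sc_ne hw hcz ⟨fun h => (hpbA h).elim, fun h => (dj hw h hz.1).elim⟩ (Or.inr hbB)) e.symm
        · exact fun e => hpbA (e ▸ hpXA)
        · exact fun e => hpbc (e ▸ hcx.pr hw)
        · rw [hp]; exact fun e => hpbc (e ▸ hcx)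
        · exact fun e => dj hw hx.2 (e ▸ hXB)
        · rw [hp]; exact fun e => dj hw hx.1 (e ▸ hXB)
        · exact fun e => dj hw hfA (e ▸ hbB)
      obtain ⟨s', r, h'⟩ := RHOC' hmv (ColC.b1 z hbB (by rw [hp]; exact hbA) hpXA hx.2 hz.1 hz.2)
      have hbx' : p b ≠ x := fun e => hpbA (e ▸ hx.1)
      have m1 : ∀ v, v ∈ s'.1 ↔ v ∈ s.1 ∨ v = p b := by
        intro v
        rw [h'.m1, hp]
        have h1 : v ∈ s.1 → v ≠ p b := fun h e => hpbA (e ▸ h)
        have := hx.2
        have h2 : v = x → v ∈ s.1 := fun e => e ▸ hx.1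
        (first | grind | tauto)
      obtain ⟨cd, d2⟩ := flip1 hw h'.wf (v := p b) (Or.inr hbB) hpbc (mvd_T hmv h') (by
        intro v hv
        rw [m1]
        by_cases e2 : v = p b
        · subst e2
          (first | grind | tauto)
        · (first | grind | tauto))
      have hred' : NA.Red p s' x := ⟨(m1 x).2 (Or.inl hx.1), (m1 _).2 (Or.inl hx.2)⟩
      have hblu' : NA.Blu p s' z := by
        have c1 : Cd p s' z := (cd z).2 (Or.inl hcz)
        rcases c1 with c1 | c1
        · exfalso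
          rcases (m1 z).1 c1.1 with h | h
          · exact dj hw h hz.1
          · exact hpbc (h ▸ hcz)
        · exact c1
      refine ⟨s', r, mvd_gp hmv h' ⟨x, hred'⟩ ⟨z, hblu'⟩, h'.perm hmv, mvd_mu hmv h', by rw [d2, hD], p b, ?_⟩
      have sb : NA.sc s' (p b) = p x := by
        rw [mvd_sc h', ← hXd, v_x hmv]
      have pb : NA.pd s' (p b) = NA.pd s (p x) := mvd_pd_t hmv h'
      refine ⟨(cd _).2 (Or.inr (Or.inl rfl)), ?_, ?_, ?_⟩
      · rw [sb]
        exact (cd _).2 (Or.inl (hcx.pr hw))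
      · rw [sb, hp]
        exact fun e => hbc (e ▸ hcx.pr hw)
      · rw [hp, pb]
        match m, hm with
        | 0, hm =>
          left
          exact NA.pd_of_sc hm
        | k + 1, hm =>
          right
          have hm' := hm
          obtain ⟨⟨e1, e2⟩, h3⟩ := hm
          -- the successor of `b`
          have hq : NA.sc s b ∈ s.1 := scA.2 hbA
          have hqc : ¬ Cd p s (NA.sc s b) := by
            intro h
            rcases T h with e | e | e | e
            · rw [e] at hm'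
              have := To.uniq hm' hTx
              omega
            · exact e1 e
            · exact dj hw hq (e ▸ hz.1)
            · exact dj hw hq (e ▸ hz.2)
          have sb2 : NA.sc s' b = NA.sc s b := by
            rw [mvd_sc h']
            refine v_o (fun e => ?_) (fun e => ?_) e1 (fun e => ?_) (fun e => hX2 e.symm) (fun e => ?_)
            · exact hpbA (e ▸ hq)
            · exact hXA (e ▸ hq)
            · rw [hp] at e
              exact (sc_ne hw hcx ⟨fun _ => hx.1, fun _ => hbA⟩ (Or.inl hbA)) e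
            · rw [hp] at e
              exact hqc (e ▸ hcx)
          obtain ⟨c, hc⟩ := To.last hm'
          have hcA := toM hc
          have hcs : NA.sc s c = p x := hc.2
          have hpc : NA.pd s (p x) = c := NA.pd_of_sc hcs
          have hcc : ¬ Cd p s c := by
            intro h
            rcases T h with e | e | e | e
            · rw [e] at hc
              have := To.uniq hc hTx
              omega
            · exact hc.1.1 e
            · exact dj hw hcA (e ▸ hz.1)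
            · exact dj hw hcA (e ▸ hz.2)
          unfold Stop
          rw [sb2, hpc, cd, cd, hp]
          rintro ((h | h | h) | (h | h | h) | h | h)
          · exact hqc h
          · exact hpbA (h ▸ hq)
          · exact (sc_ne hw hcx ⟨fun _ => hx.1, fun _ => hbA⟩ (Or.inl hbA)) h
          · exact hcc h
          · exact hpbA (h ▸ hcA)
          · rw [h] at hc
            have := To.uniq hc hTb
            omega
          · exact dj hw hcA (h ▸ hfB)
          · exact hc.1.2 h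

/-- the algorithm for `D = 2`. -/
theorem d2loop (M : ℕ) : ∀ (N : ℕ) {s : St Ω} (_ : GP p f s) (_ : D2 p s = 4) (_ : (s.1 ++ s.2).length = M) {x : Ω} (_ : NA.Red p s x)
    {n j : ℕ} (_ : To (NA.sc s) (p x) (p f) n (NA.sc s x)) (_ : n ≠ 0 → To (NA.sc s) f f j (p (NA.sc s x))) (_ : n * (M + 1) + j ≤ N),
    ∃ s', RTs p (6 * (N + 1)) s s' ∧ GP p f s' ∧ (s'.1 ++ s'.2).Perm (s.1 ++ s.2) ∧ NA.mu p s' = NA.mu p s ∧
      ((D2 p s' = 4 ∧ Near p f s') ∨ Star p f s') := by
  intro N
  induction N with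
  | zero =>
    intro s hg hD hM x hx n j hn hj hN
    have hn0 : n = 0 := by
      rcases Nat.eq_zero_or_pos n with h | h
      · exact h
      · have : 1 * (M + 1) ≤ n * (M + 1) := Nat.mul_le_mul_right _ h
        omega
    subst hn0
    exact ⟨s, (rts_refl hg).mono (Nat.zero_le _), hg, List.Perm.refl _, rfl, Or.inl ⟨hD, x, Or.inl hx, Or.inl hn⟩⟩
  | succ N ih =>
    intro s hg hD hM x hx n j hn hj hN
    rcases d2step hg hD hx hn with h | h | h | h
    · exact ⟨s, (rts_refl hg).mono (Nat.zero_le _), hg, List.Perm.refl _, rfl, Or.inl ⟨hD, h⟩⟩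
    · obtain ⟨s', r, g, pm, mu, st⟩ := h
      exact ⟨s', r.mono (by omega), g, pm, mu, Or.inr st⟩
    · obtain ⟨s', r, g, pm, mu, d2, x', m, hx', hnm, ht⟩ := h
      have hM' : (s'.1 ++ s'.2).length = M := by rw [pm.length_eq, hM]
      obtain ⟨j', hj'⟩ : ∃ j' ≤ M, (m ≠ 0 → To (NA.sc s') f f j' (p (NA.sc s' x'))) := by
        by_cases hm : m = 0
        · exact ⟨0, Nat.zero_le _, fun h => (h hm).elim⟩
        · have hm2 : ∃ k, m = k + 1 := ⟨m - 1, by omega⟩
          obtain ⟨k, rfl⟩ := hm2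
          have hw' := g.wf
          have h1 : NA.sc s' x' ∈ s'.1 := (NA.sc_mem_A hw'.nd).2 hx'.1
          have h2 : p (NA.sc s' x') ∈ s'.2 := by
            rcases cas hw' (Or.inl h1) with h3 | h3
            · exfalso
              obtain ⟨z', hz'⟩ := g.blu
              rcases two g d2 hx' hz' (Or.inl ⟨h1, h3⟩) with e | e | e | e
              · exact sc_ne hw' (Or.inl hx') Iff.rfl (Or.inl hx'.1) e
              · exact ht.1.1 e
              · exact dj hw' h1 (e ▸ hz'.1)
              · exact dj hw' h1 (e ▸ hz'.2)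
            · exact h3
          obtain ⟨j', h3, h4⟩ := to_last g h2
          refine ⟨j', ?_, fun _ => h4⟩
          rw [← hM', List.length_append]
          omega
      have hb : m * (M + 1) + j' ≤ N := by
        have : n * (M + 1) = m * (M + 1) + (M + 1) := by rw [hnm]; ring
        omega
      obtain ⟨s'', r2, g2, pm2, mu2, e⟩ := ih g d2 hM' hx' ht hj'.2 hb
      exact ⟨s'', (r.trans r2 pm).mono (by omega), g2, pm2.trans pm, mu2.trans mu, e⟩
    · obtain ⟨s', r, g, pm, mu, d2, hn0, m, hx', hmn, ht, hB⟩ := h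
      have hM' : (s'.1 ++ s'.2).length = M := by rw [pm.length_eq, hM]
      obtain ⟨i, hi, hti⟩ := hB j (hj hn0)
      have hb : m * (M + 1) + i ≤ N := by
        have : m * (M + 1) ≤ n * (M + 1) := Nat.mul_le_mul_right _ hmn
        omega
      obtain ⟨s'', r2, g2, pm2, mu2, e⟩ := ih g d2 hM' hx' ht (fun _ => hti) hb
      exact ⟨s'', (r.trans r2 pm).mono (by omega), g2, pm2.trans pm, mu2.trans mu, e⟩

/-- **D = 2** (Part I). -/
theorem D2proc (hg : GP p f s) (hD : D2 p s = 4) :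
    ∃ s', RTs p (6 * ((s.1 ++ s.2).length + 1) ^ 2) s s' ∧ GP p f s' ∧ (s'.1 ++ s'.2).Perm (s.1 ++ s.2) ∧ NA.mu p s' = NA.mu p s ∧
      ((D2 p s' = 4 ∧ Near p f s') ∨ Star p f s') := by
  obtain ⟨x, hx⟩ := hg.red
  have hw := hg.wf
  obtain ⟨a, ha, n, hn, ht⟩ := to_arc hg hx
  have hra : NA.Red p s a := by
    rcases ha with rfl | rfl
    · exact hx
    · exact ⟨hx.2, by rw [hw.inv]; exact hx.1⟩
  set M := (s.1 ++ s.2).length with hM
  have hl : s.1.length ≤ M := by rw [hM, List.length_append]; omega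
  obtain ⟨j, hj, hj2⟩ : ∃ j ≤ M, (n ≠ 0 → To (NA.sc s) f f j (p (NA.sc s a))) := by
    by_cases hm : n = 0
    · exact ⟨0, Nat.zero_le _, fun h => (h hm).elim⟩
    · have hm2 : ∃ k, n = k + 1 := ⟨n - 1, by omega⟩
      obtain ⟨k, rfl⟩ := hm2
      have h1 : NA.sc s a ∈ s.1 := (NA.sc_mem_A hw.nd).2 hra.1
      have h2 : p (NA.sc s a) ∈ s.2 := by
        rcases cas hw (Or.inl h1) with h3 | h3
        · exfalso
          obtain ⟨z', hz'⟩ := hg.blu
          rcases two hg hD hra hz' (Or.inl ⟨h1, h3⟩) with e | e | e | e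
          · exact sc_ne hw (Or.inl hra) Iff.rfl (Or.inl hra.1) e
          · exact ht.1.1 e
          · exact dj hw h1 (e ▸ hz'.1)
          · exact dj hw h1 (e ▸ hz'.2)
        · exact h3
      obtain ⟨j', h3, h4⟩ := to_last hg h2
      refine ⟨j', ?_, fun _ => h4⟩
      rw [hM, List.length_append]
      omega
  obtain ⟨s', r, g, pm, mu, e⟩ := d2loop M (M * (M + 1) + M) hg hD rfl hra ht hj2
    (by
      have : n * (M + 1) ≤ M * (M + 1) := Nat.mul_le_mul_right _ (hn.trans hl)
      omega)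
  refine ⟨s', r.mono (le_of_eq ?_), g, pm, mu, e⟩
  ring

end NP
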