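import Pool.Agent.helper3.NP.Walk

/-!
# MP_c8d30a, exponent 12, Part II.4: the hits (annihilation of a p-defect and a mu-defect at one token)
-/

set_option autoImplicit false

namespace NP

open NTH Equiv NTS
open Pool.Agent.helper32.RH (RTs MvO Mvd Col RHO')

variable {Ω : Type} [DecidableEq Ω] {p : Ω → Ω} {s s' : St Ω} {f : Ω}

/-- a drop with `K` runs. -/
def Dr (p : Ω → Ω) (K : ℕ) (f : Ω) (s : St Ω) : Prop :=
  ∃ s', RTs p K s s' ∧ GP p f s' ∧ (s'.1 ++ s'.2).Perm (s.1 ++ s.2) ∧ D2 p s' < D2 p s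

theorem Dr.mono {a b : ℕ} (h : Dr p a f s) (hab : a ≤ b) : Dr p b f s := by
  obtain ⟨s', h1, h2⟩ := h
  exact ⟨s', h1.mono hab, h2⟩

theorem Dr.pre {a b : ℕ} {u : St Ω} (h : RTs p a s u) (hp : (u.1 ++ u.2).Perm (s.1 ++ s.2)) (hm : D2 p u ≤ D2 p s)
    (h' : Dr p b f u) : Dr p (a + b) f s := by
  obtain ⟨s', h1, h2, h3, h4⟩ := h'
  exact ⟨s', h.trans h1 hp, h2, h3.trans hp, lt_of_lt_of_le h4 hm⟩

/-- flipping one token: the defects of an involution. -/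
theorem def_flip1 {T A A' : Ω → Prop} {q : Ω → Ω} (hq : ∀ z, q (q z) = z) (hn : ∀ z, q z ≠ z) (hT : ∀ z, T z → T (q z)) {a : Ω}
    (hA' : ∀ z, T z → (A' z ↔ ((A z ∧ z ≠ a) ∨ (¬ A z ∧ z = a)))) (hTa : T a)
    (ha : A a ↔ A (q a)) (z : Ω) :
    (T z ∧ (A' z ↔ A' (q z))) ↔ (T z ∧ (A z ↔ A (q z))) ∧ z ≠ a ∧ z ≠ q a := by
  have hqa := hn a
  have hTqa := hT a hTa
  have a1 : A' a ↔ ¬ A a := by rw [hA' a hTa]; simp
  have a2 : A' (q a) ↔ A (q a) := by rw [hA' _ hTqa]; simp [hqa]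
  by_cases h1 : z = a
  · subst h1
    rw [a1, a2, ha]
    simp
  by_cases h2 : z = q a
  · subst h2
    rw [hq, a1, a2, ← ha]
    simp
  have h5 : q z ≠ a := fun h => h2 (by rw [← h, hq])
  by_cases hz : T z
  · have a5 : A' z ↔ A z := by rw [hA' z hz]; simp [h1]
    have a6 : A' (q z) ↔ A (q z) := by rw [hA' _ (hT z hz)]; simp [h5]
    rw [a5, a6]
    simp [h1, h2]
  · simp [hz]

/-- the p-defect and the mu-defect at `a` are annihilated. -/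
structure AN (p : Ω → Ω) (f : Ω) (s : St Ω) (a : Ω) (s' : St Ω) : Prop where
  gp : GP p f s'
  perm : (s'.1 ++ s'.2).Perm (s.1 ++ s.2)
  d2 : D2 p s' + 2 = D2 p s
  mu : NA.mu p s' = NA.mu p s
  m1 : ∀ z, z ∈ s'.1 ↔ (z ∈ s.1 ∧ z ≠ a) ∨ (z = a ∧ a ∈ s.2)
  m2 : ∀ z, z ∈ s'.2 ↔ (z ∈ s.2 ∧ z ≠ a) ∨ (z = a ∧ a ∈ s.1)
  cd : ∀ z, Cd p s' z ↔ Cd p s z ∧ z ≠ a ∧ z ≠ p a
  md : ∀ z, MD p s' z ↔ MD p s z ∧ z ≠ a ∧ z ≠ NA.mu p s a

/-- the combinatorial part. -/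
theorem AN.mk' {a : Ω} (hg : GP p f s) (ca : Cd p s a) (ma : MD p s a) (wf : WF p s') (last : s'.2.getLast? = some f)
    (mu : NA.mu p s' = NA.mu p s)
    (m1 : ∀ z, z ∈ s'.1 ↔ (z ∈ s.1 ∧ z ≠ a) ∨ (z = a ∧ a ∈ s.2))
    (m2 : ∀ z, z ∈ s'.2 ↔ (z ∈ s.2 ∧ z ≠ a) ∨ (z = a ∧ a ∈ s.1))
    {b : Ω} (cb : Cd p s b) (hb : b ∈ s.1 ↔ a ∈ s.1) (b1 : b ≠ a) (b2 : b ≠ p a) : AN p f s a s' := by
  have hw := hg.wf
  have hu := (cd_iff hw).1 ca
  have hT : ∀ z, (z ∈ s'.1 ∨ z ∈ s'.2) ↔ (z ∈ s.1 ∨ z ∈ s.2) := by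
    intro z
    rw [m1, m2]
    by_cases e1 : z = a
    · subst e1
      (first | grind | tauto)
    · (first | grind | tauto)
  have hA' : ∀ z, (z ∈ s.1 ∨ z ∈ s.2) → (z ∈ s'.1 ↔ ((z ∈ s.1 ∧ z ≠ a) ∨ (¬ z ∈ s.1 ∧ z = a))) := by
    intro z hz
    rw [m1]
    by_cases e1 : z = a
    · subst e1
      have : z ∈ s.2 ↔ ¬ z ∈ s.1 := ⟨fun h3 h4 => dj hw h4 h3, fun h3 => hz.resolve_left h3⟩
      (first | grind | tauto)
    · (first | grind | tauto)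
  have cd : ∀ z, Cd p s' z ↔ Cd p s z ∧ z ≠ a ∧ z ≠ p a := by
    intro z
    rw [cd_iff wf, cd_iff hw, hT]
    exact def_flip1 (T := fun z => z ∈ s.1 ∨ z ∈ s.2) (A := fun z => z ∈ s.1) (A' := fun z => z ∈ s'.1) hw.inv hw.ne
      (fun z hz => cas hw hz) hA' hu.1 hu.2 z
  have md : ∀ z, MD p s' z ↔ MD p s z ∧ z ≠ a ∧ z ≠ NA.mu p s a := by
    intro z
    rw [md_iff' wf, md_iff' hw, hT, mu]
    exact def_flip1 (T := fun z => z ∈ s.1 ∨ z ∈ s.2) (A := fun z => z ∈ s.1) (A' := fun z => z ∈ s'.1) (NA.mu_mu hw.inv s) (mu_ne hw)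
      (fun z hz => mu_mem hw hz) hA' hu.1 ((md_iff' hw).1 ma).2 z
  have hperm : (s'.1 ++ s'.2).Perm (s.1 ++ s.2) := by
    rw [List.perm_ext_iff_of_nodup wf.nd hw.nd]
    intro z
    rw [List.mem_append, List.mem_append]
    exact hT z
  have hd2 : D2 p s' + 2 = D2 p s := by
    rw [D2_card hw, D2_card wf]
    have e1 : CS p s' = CS p s \ {a, p a} := by
      ext z
      rw [mem_CS, cd, Finset.mem_sdiff, mem_CS, Finset.mem_insert, Finset.mem_singleton]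
      (first | grind | tauto)
    have e2 : ({a, p a} : Finset Ω) ⊆ CS p s := by
      intro z hz
      rw [Finset.mem_insert, Finset.mem_singleton] at hz
      rw [mem_CS]
      rcases hz with rfl | rfl
      · exact ca
      · exact ca.pr hw
    have n3 : ({a, p a} : Finset Ω).card = 2 := Finset.card_pair (hw.ne a).symm
    have n4 := Finset.card_le_card e2
    rw [e1, Finset.card_sdiff_of_subset e2, n3]
    omega
  have pb1 : p b ≠ a := fun e => b2 (by rw [← e, hw.inv])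
  have cb' := (cd_iff hw).1 cb
  have hfB : f ∈ s.2 := List.mem_of_getLast? hg.last
  have hfA : p f ∈ s'.1 := by
    rw [m1]
    left
    refine ⟨hg.fA, ?_⟩
    rintro rfl
    rcases ca with h5 | h5
    · have := h5.2
      rw [hw.inv] at this
      exact dj hw this hfB
    · exact dj hw hg.fA h5.1
  obtain ⟨r, hr⟩ := hg.red
  obtain ⟨l, hl⟩ := hg.blu
  refine ⟨⟨wf, last, hfA, ?_, ?_⟩, hperm, hd2, mu, m1, m2, cd, md⟩
  · by_cases hA : a ∈ s.1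
    · have h1 : b ∈ s.1 := hb.2 hA
      exact ⟨b, (m1 b).2 (Or.inl ⟨h1, b1⟩), (m1 _).2 (Or.inl ⟨cb'.2.1 h1, pb1⟩)⟩
    · have h1 : r ≠ a := fun e => hA (e ▸ hr.1)
      have h2 : p r ≠ a := fun e => hA (e ▸ hr.2)
      exact ⟨r, (m1 r).2 (Or.inl ⟨hr.1, h1⟩), (m1 _).2 (Or.inl ⟨hr.2, h2⟩)⟩
  · by_cases hA : a ∈ s.1
    · have h1 : l ≠ a := fun e => dj hw hA (e ▸ hl.1)
      have h2 : p l ≠ a := fun e => dj hw hA (e ▸ hl.2)
      exact ⟨l, (m2 l).2 (Or.inl ⟨hl.1, h1⟩), (m2 _).2 (Or.inl ⟨hl.2, h2⟩)⟩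
    · have h0 : b ∉ s.1 := fun h => hA (hb.1 h)
      have h1 : b ∈ s.2 := cb'.1.resolve_left h0
      have h2 : p b ∈ s.2 := (cas hw (Or.inr h1)).resolve_left (fun h => h0 (cb'.2.2 h))
      exact ⟨b, (m2 b).2 (Or.inl ⟨h1, b1⟩), (m2 _).2 (Or.inl ⟨h2, pb1⟩)⟩

theorem AN.dr {K : ℕ} {a : Ω} (h : AN p f s a s') (hr : RTs p K s s') : Dr p K f s :=
  ⟨s', hr, h.gp, h.perm, by have := h.d2; omega⟩

/-- the letter of `f` is mixed. -/
theorem not_cd_f (hg : GP p f s) : ¬ Cd p s f := by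
  have hfB : f ∈ s.2 := List.mem_of_getLast? hg.last
  rintro (h5 | h5)
  · exact dj hg.wf h5.1 hfB
  · exact dj hg.wf hg.fA h5.2

theorem Cd.nf (hg : GP p f s) {u : Ω} (h : Cd p s u) : u ≠ f := fun e => not_cd_f hg (e ▸ h)

theorem Cd.nf' (hg : GP p f s) {u : Ω} (h : Cd p s u) : u ≠ p f := fun e => not_cd_f hg (by
  have := h.pr hg.wf
  rwa [e, hg.wf.inv] at this)

/-- **X-hit**: the successor of `u` is coloured (the mu-edge at `u` is a defect), the token `v` before `p u` is mixed, not the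
letter of `f`: the p-defect and the mu-defect at `u` are annihilated. -/
theorem xhit {u v : Ω} (hg : GP p f s) (hc : Cp p s u v) (h1 : Cd p s (NA.sc s u)) (h2 : ¬ Cd p s v) (vf : v ≠ f) (vf' : v ≠ p f) :
    ∃ s', RTs p 6 s s' ∧ AN p f s u s' ∧ NA.pd s' (NA.sc s u) = NA.pd s u ∧ NA.pd s' (p (NA.sc s u)) = v ∧
      (∀ w, Cd p s w → w ≠ u → w ≠ p u → w ≠ NA.sc s u → w ≠ p (NA.sc s u) → NA.pd s' w = NA.pd s w) := by
  have hw := hg.wf
  have hp := hw.inv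
  have hu := (cd_iff hw).1 hc.1
  have hvm := hc.vm hw
  have hpvf : p v ≠ f := fun e => vf' (by rw [← e, hp])
  have hpvf' : p v ≠ p f := fun e => vf (by rw [← hp v, e, hp])
  have c2 : ¬ Cd p s (p v) := fun h => h2 ((Cd.p_iff hw).1 h)
  have hscv : NA.sc s v = p u := by rw [← hc.2, NA.sc_pd]
  have hxA : NA.sc s u ∈ s.1 ↔ u ∈ s.1 := NA.sc_mem_A hw.nd
  have hxB : NA.sc s u ∈ s.2 ↔ u ∈ s.2 := NA.sc_mem_B hw.nd
  have hux : u ≠ NA.sc s u := (sc_ne hw hc.1 Iff.rfl hu.1).symm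
  have hupx : u ≠ p (NA.sc s u) := by
    intro e
    have h3 : NA.sc s u = p u := by rw [← hp (NA.sc s u), ← e]
    have h4 : v = u := by rw [← hc.2, ← h3, NA.pd_sc]
    exact h2 (h4 ▸ hc.1)
  have hmv : MvO p s f u (NA.sc s u) (p v) := by
    refine ⟨hw, hg.last, hg.fA, List.mem_append.2 hu.1, rfl, ?_, hux, hupx, ?_, ?_, ?_, ?_, hc.1.nf hg, hc.1.nf' hg, hpvf, hpvf'⟩
    · rw [hp, hscv]
    · exact fun e => c2 (e ▸ hc.1)
    · rw [hp]
      exact fun e => h2 (e ▸ hc.1)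
    · exact fun e => c2 (e ▸ h1)
    · rw [hp]
      exact fun e => h2 (e ▸ h1)
  have hx' := (cd_iff hw).1 h1
  have hcol : Col p s u (NA.sc s u) (p v) := by
    rcases hc.1 with h3 | h3
    · obtain ⟨b, hb⟩ := hg.blu
      exact Col.red b h3.1 h3.2 hb.1 hb.2 (fun h4 _ => (dj hw (hx'.2.1 (hxA.2 h3.1)) h4).elim)
    · obtain ⟨r, hr⟩ := hg.red
      refine Col.blue r h3.1 h3.2 hr.1 hr.2 (fun h4 _ => (dj hw (hx'.2.2 h4) (hxB.2 h3.1)).elim)
  obtain ⟨s', r, m⟩ := RHO' hmv hcol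
  have s1 := side_p hw hvm h2 (hc.sdA hw) (hc.sdB hw)
  have s2 : p (NA.sc s u) ∈ s.1 ↔ v ∈ s.1 := by rw [← hx'.2, hxA, hc.sdA hw]
  have s3 : p (NA.sc s u) ∈ s.2 ↔ v ∈ s.2 := by
    have h3 := ((cd_iff hw).1 (h1.pr hw)).1
    constructor
    · intro h4
      exact hvm.resolve_left (fun h5 => dj hw (s2.2 h5) h4)
    · intro h4
      exact h3.resolve_left (fun h5 => dj hw (s2.1 h5) h4)
  have hvu : v ≠ u := fun e => h2 (e ▸ hc.1)
  refine ⟨s', r, ?_, ?_, ?_, ?_⟩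
  · refine AN.mk' hg hc.1 ((md_iff hw).2 h1) m.wf m.last (mvd_mu hmv m) ?_ ?_ (b := NA.sc s u) h1 hxA hux.symm ?_
    · intro z
      rw [m.m1, hp, s1.1, s2]
      by_cases e : z = v
      · subst e
        simp [hvu]
      · simp [e]
    · intro z
      rw [m.m2, hp, s1.2, s3]
      by_cases e : z = v
      · subst e
        simp [hvu]
      · simp [e]
    · intro e
      exact hupx (by rw [e, hp])
  · exact mvd_pd_x hmv m
  · rw [mvd_pd_px hmv m, hp]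
  · intro w w1 w2 w3 w4 w5
    apply mvd_pd_o m w2 w4 (fun e => c2 (e ▸ w1)) w3 w5
    rw [hp]
    exact fun e => h2 (e ▸ w1)

/-- **Y-hit**: the token `v` before `p u` is coloured, not the letter of `u` (the p-edge at `v` is a defect), the successor of `u`
is mixed: the p-defect and the mu-defect at `v` are annihilated. -/
theorem yhit {u v : Ω} (hg : GP p f s) (hc : Cp p s u v) (h1 : ¬ Cd p s (NA.sc s u)) (h2 : Cd p s v) (huv : u ≠ v) :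
    ∃ s', RTs p 6 s s' ∧ AN p f s v s' ∧ NA.pd s' u = NA.pd s (p v) ∧ NA.pd s' (p u) = NA.pd s v ∧
      (∀ w, Cd p s w → w ≠ u → w ≠ p u → w ≠ v → w ≠ p v → NA.pd s' w = NA.pd s w) := by
  have hw := hg.wf
  have hp := hw.inv
  have hu := (cd_iff hw).1 hc.1
  have hv := (cd_iff hw).1 h2
  have hscm := sc_mem hw hu.1
  have c1 : ¬ Cd p s (p (NA.sc s u)) := fun h => h1 ((Cd.p_iff hw).1 h)
  have hscv : NA.sc s v = p u := by rw [← hc.2, NA.sc_pd]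
  have hupv : u ≠ p v := by
    intro e
    have h3 : v = p u := by rw [e, hp]
    have h4 : NA.sc s (p u) = p u := by rw [← h3, hscv, ← h3]
    exact sc_ne hw hc.1 hu.2.symm (cas hw hu.1) h4
  have hpuv : p u ≠ v := fun e => hupv (by rw [← e, hp])
  have hmv : MvO p s f u (NA.sc s u) (p v) := by
    refine ⟨hw, hg.last, hg.fA, List.mem_append.2 hu.1, rfl, ?_, ?_, ?_, hupv, ?_, ?_, ?_, hc.1.nf hg, hc.1.nf' hg, (h2.pr hw).nf hg,
      (h2.pr hw).nf' hg⟩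
    · rw [hp, hscv]
    · exact fun e => h1 (e ▸ hc.1)
    · exact fun e => c1 (e ▸ hc.1)
    · rw [hp]
      exact huv
    · exact fun e => h1 (e ▸ h2.pr hw)
    · rw [hp]
      exact fun e => h1 (e ▸ h2)
  have hcol : Col p s u (NA.sc s u) (p v) := by
    rcases hc.1 with h3 | h3
    · obtain ⟨b, hb⟩ := hg.blu
      exact Col.red b h3.1 h3.2 hb.1 hb.2 (fun _ h4 => (dj hw (hv.2.1 ((hc.sdA hw).2 h3.1)) h4).elim)
    · obtain ⟨r, hr⟩ := hg.red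
      refine Col.blue r h3.1 h3.2 hr.1 hr.2 (fun _ h4 => (dj hw (hv.2.2 h4) ((hc.sdB hw).2 h3.1)).elim)
  obtain ⟨s', r, m⟩ := RHO' hmv hcol
  have s1 := side_p hw hscm h1 (NA.sc_mem_A hw.nd) (NA.sc_mem_B hw.nd) (u := u)
  have s2 : p v ∈ s.1 ↔ u ∈ s.1 := by rw [← hv.2, hc.sdA hw]
  have s3 : p v ∈ s.2 ↔ u ∈ s.2 := by
    have h3 := ((cd_iff hw).1 (h2.pr hw)).1
    constructor
    · intro h4
      exact hu.1.resolve_left (fun h5 => dj hw (s2.2 h5) h4)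
    · intro h4
      exact h3.resolve_left (fun h5 => dj hw (s2.1 h5) h4)
  have s4 := hc.sdA hw
  have s5 := hc.sdB hw
  refine ⟨s', r, ?_, ?_, ?_, ?_⟩
  · refine AN.mk' hg h2 ?_ m.wf m.last (mvd_mu hmv m) ?_ ?_ (b := u) hc.1 s4.symm huv hupv
    · rw [md_iff hw, hscv]
      exact hc.1.pr hw
    · intro z
      rw [m.m1, hp, s1.1, s2, s5]
      by_cases e : z = u
      · subst e
        simp [huv]
      · simp [e]
    · intro z
      rw [m.m2, hp, s1.2, s3, s4]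
      by_cases e : z = u
      · subst e
        simp [huv]
      · simp [e]
  · exact mvd_pd_t hmv m
  · have := mvd_pd_pt hmv m
    rw [this, hp]
  · intro w w1 w2 w3 w4 w5
    apply mvd_pd_o m w2 (fun e => h1 (e ▸ w1)) w5 w3 (fun e => c1 (e ▸ w1))
    rw [hp]
    exact w4

/-- **hit**: exactly one defect ahead: drop. -/
theorem hit {u v : Ω} (hg : GP p f s) (hc : Cp p s u v) (huv : u ≠ v)
    (h : (Cd p s (NA.sc s u) ∧ ¬ Cd p s v ∧ v ≠ f ∧ v ≠ p f) ∨ (¬ Cd p s (NA.sc s u) ∧ Cd p s v)) : Dr p 6 f s := by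
  rcases h with ⟨h1, h2, h3, h4⟩ | ⟨h1, h2⟩
  · obtain ⟨s', r, a, -⟩ := xhit hg hc h1 h2 h3 h4
    exact a.dr r
  · obtain ⟨s', r, a, -⟩ := yhit hg hc h1 h2 huv
    exact a.dr r

end NP
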