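import Pool.Agent.helper65.D3.Stp

/-!
# MP_c8d30a, exponent 12, Part I: three mu-defects in a row
-/

set_option autoImplicit false

namespace NP

open NTH NP Equiv NTS D3
open Pool.Agent.helper32.RH (RTs)

variable {Ω : Type} [DecidableEq Ω] {p r : Ω → Ω} {s s' : St Ω} {f : Ω} {a b c d g h : Ω}

/-- the statement SELF of helper65. -/
def SelfT (K K' k : ℕ) : Prop := ∀ (Ω : Type) [DecidableEq Ω] (p r : Ω → Ω) (f : Ω) (s : St Ω) (a b c d g h : Ω),
  Tri p f s a b c d g h → Can p (NA.mu p s) r → Cv1 p (NA.mu p s) r f K a b → Goal p r f s K' (k * ((s.1 ++ s.2).length + 1))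

theorem pr_odd {A E C : Prop} (h : (A ↔ E) ↔ C) (h' : ¬ (A ↔ C)) : ¬ E := by tauto

theorem pr_even {A E G : Prop} (h : (A ↔ E) ↔ G) (h' : A ↔ G) : E := by tauto

/-! ### nearness -/

section near
variable {q : Ω → Ω} {l : List Ω} {x : Ω}

theorem nb (h : x ∈ l) : x ∈ Wr p q r 6 (p f :: l) := Wr_base (List.mem_cons_of_mem _ h)

theorem nb1 {L : List Ω} (h : x ∈ L) : p x ∈ Wr p q r 1 L := Wr_p (K := 0) h

theorem nb2 {L : List Ω} (h : x ∈ L) : q x ∈ Wr p q r 1 L := Wr_q (K := 0) h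

theorem nb3 {L : List Ω} (h : x ∈ L) : p (q x) ∈ Wr p q r 2 L := Wr_p (K := 1) (nb2 h)

theorem nb4 {L : List Ω} (h : x ∈ L) : q (p (q x)) ∈ Wr p q r 3 L := Wr_q (K := 2) (nb3 h)

theorem np1 (h : x ∈ l) : p x ∈ Wr p q r 6 (p f :: l) := Wr_up (K := 1) (K' := 6) (by norm_num) (nb1 (List.mem_cons_of_mem _ h))

theorem np2 (h : x ∈ l) : q x ∈ Wr p q r 6 (p f :: l) := Wr_up (K := 1) (K' := 6) (by norm_num) (nb2 (List.mem_cons_of_mem _ h))

theorem np3 (h : x ∈ l) : p (q x) ∈ Wr p q r 6 (p f :: l) := Wr_up (K := 2) (K' := 6) (by norm_num) (nb3 (List.mem_cons_of_mem _ h))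

theorem np4 (h : x ∈ l) : q (p (q x)) ∈ Wr p q r 6 (p f :: l) := Wr_up (K := 3) (K' := 6) (by norm_num) (nb4 (List.mem_cons_of_mem _ h))

theorem cv_same {a : Ω} : Cv1 p q r f 10 a a := ⟨a, Wr_base (List.mem_cons_of_mem _ (List.mem_singleton_self _)), Wr_base (List.mem_cons_of_mem _ (List.mem_singleton_self _))⟩

theorem cv_f {a b : Ω} (h : b = p (p f)) : Cv1 p q r f 10 a b :=
  ⟨a, Wr_base (List.mem_cons_of_mem _ (List.mem_singleton_self _)), by
    rw [h]
    exact Wr_up (K := 1) (K' := 10) (by norm_num) (nb1 List.mem_cons_self)⟩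

theorem cv_pf {a b : Ω} (h : b = p f) : Cv1 p q r f 10 a b :=
  ⟨a, Wr_base (List.mem_cons_of_mem _ (List.mem_singleton_self _)), by
    rw [h]
    exact Wr_base List.mem_cons_self⟩

theorem cv_nr {a b : Ω} (h : Nr p q r 2 a b) : Cv1 p q r f 10 a b :=
  ⟨b, Wr_mono (K := 2) (K' := 10) (by norm_num) (fun z hz => by
    rw [List.mem_singleton] at hz
    rw [hz]
    exact List.mem_cons_of_mem _ (List.mem_singleton_self _)) h, Wr_base (List.mem_cons_of_mem _ (List.mem_singleton_self _))⟩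

end near

/-- one of the outer letters walks away. -/
theorem row1 {K' k0 : ℕ} (hS : SelfT 10 K' k0) (T : Tri p f s a b c d g h) (hC : Can p (NA.mu p s) r)
    (e1 : NA.mu p s b = p d) (e2 : NA.mu p s h = p (NA.mu p s d)) (s1 : a ∈ s.1 ↔ g ∈ s.1) (s2 : ¬ (a ∈ s.1 ↔ c ∈ s.1)) :
    Goal p r f s (K' + 10) ((k0 + 20) * ((s.1 ++ s.2).length + 1)) ∨
    ∃ k, (FF p (NA.mu p s))^[k] a = h ∧
      (∀ j < 2 * k, NS p f s a b (wk p (NA.mu p s) j (a, b)).1 (wk p (NA.mu p s) j (a, b)).2) ∧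
      (GG p (NA.mu p s))^[k] b ≠ g := by
  have hw := T.wf
  have hp := hw.inv
  have hq := NA.mu_mu hw.inv s
  have hfr : Fr p s a := T.fr (fun h => s2 (s1.trans h.symm))
  obtain ⟨n, hn, s', W, hNS, hst, hpar⟩ := fwalk T.gp T.c1 hfr hC
  have hmu : NA.mu p s' = NA.mu p s := W.mu
  have T' := T.walked W
  have hcs := T.sideC W
  have hgs := T.sw23.sideC W
  have hM : (s'.1 ++ s'.2).length = (s.1 ++ s.2).length := W.perm.length_eq
  set M := (s.1 ++ s.2).length with hMd
  set a' := (wk p (NA.mu p s) n (a, b)).1 with ha'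
  set b' := (wk p (NA.mu p s) n (a, b)).2 with hb'
  set q := NA.mu p s with hqd
  have lift : ∀ {K1 N1 : ℕ}, Goal p r f s' K1 N1 → K1 ≤ K' + 10 → N1 ≤ k0 * (M + 1) + 6 * (M + 1) →
      Goal p r f s (K' + 10) ((k0 + 20) * (M + 1)) := by
    intro K1 N1 h1 h2 h3
    refine (Goal.pre W.rts W.perm h1).mono h2 ?_
    have : (k0 + 20) * (M + 1) = k0 * (M + 1) + 6 * (M + 1) + 14 * (M + 1) := by ring
    omega
  by_cases hself : Cv1 p q r f 10 a' b'
  · left
    have hG := hS Ω p r f s' a' b' c d g h T' (by rw [hmu]; exact hC) (by rw [hmu]; exact hself)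
    rw [hM] at hG
    exact lift hG (by omega) (by omega)
  have hab : a' ≠ b' := by
    intro e
    exact hself (by rw [e]; exact cv_same)
  have hstop : MD p s' a' ∨ Cd p s' b' := by
    rcases hst with (h1 | h1 | h1 | h1) | h1
    · exact Or.inl ((md_iff T'.wf).2 h1)
    · exact Or.inr h1
    · exact (hself (cv_f (by rw [hp]; exact h1))).elim
    · exact (hself (cv_pf h1)).elim
    · exact (hself (cv_nr h1)).elim
  have hX : MD p s' a' → (a' = d ∨ a' = q d) ∨ (a' = h ∨ a' = q h) := by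
    intro h1
    rcases T'.mda h1 with h2 | h2 | h2
    · exact absurd h2 hab
    · rw [hmu] at h2; exact Or.inl h2
    · rw [hmu] at h2; exact Or.inr h2
  have hY : Cd p s' b' → (b' = c ∨ b' = p c) ∨ (b' = g ∨ b' = p g) := by
    intro h1
    rcases T'.cdb h1 with h2 | h2 | h2
    · exact absurd h2 hab
    · exact Or.inl h2
    · exact Or.inr h2
  have sXR : (a' = d ∨ a' = q d) → (a' ∈ s'.1 ↔ c ∈ s.1) := fun h1 => (T'.sX (by rw [hmu]; exact h1)).trans hcs
  have sXZ : (a' = h ∨ a' = q h) → (a' ∈ s'.1 ↔ g ∈ s.1) := fun h1 => (T'.sw23.sX (by rw [hmu]; exact h1)).trans hgs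
  have sYR : (b' = c ∨ b' = p c) → (a' ∈ s'.1 ↔ c ∈ s.1) := fun h1 => (T'.sY h1).trans hcs
  have sYZ : (b' = g ∨ b' = p g) → (a' ∈ s'.1 ↔ g ∈ s.1) := fun h1 => (T'.sw23.sY h1).trans hgs
  have hsRZ : (a' ∈ s'.1 ↔ c ∈ s.1) → (a' ∈ s'.1 ↔ g ∈ s.1) → False := fun k1 k2 => s2 (s1.trans (k2.symm.trans k1))
  -- nearness
  have nqh : h = q (p (q d)) := by rw [← e2, hq]
  have m0 : ∀ {l : List Ω} {z : Ω}, z ∈ l → z ∈ Wr p q r 6 (p f :: l) := fun h1 => nb h1
  have mp : ∀ {l : List Ω} {z : Ω}, z ∈ l → p z ∈ Wr p q r 6 (p f :: l) := fun h1 => np1 h1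
  have mqd : ∀ {l : List Ω}, d ∈ l → q d ∈ Wr p q r 6 (p f :: l) := fun h1 => np2 h1
  have mh : ∀ {l : List Ω}, d ∈ l → h ∈ Wr p q r 6 (p f :: l) := fun h1 => nqh.symm ▸ np4 h1
  have mqh : ∀ {l : List Ω}, d ∈ l → q h ∈ Wr p q r 6 (p f :: l) := fun h1 => e2.symm ▸ np3 h1
  have hXd : ∀ {l : List Ω}, d ∈ l → ((a' = d ∨ a' = q d) ∨ (a' = h ∨ a' = q h)) → a' ∈ Wr p q r 6 (p f :: l) := by
    rintro l h1 ((h2 | h2) | (h2 | h2)) <;> rw [h2]
    exacts [m0 h1, mqd h1, mh h1, mqh h1]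
  by_cases hx : MD p s' a'
  · by_cases hy : Cd p s' b'
    · -- both contacts
      left
      refine lift (Goal.here (K := 7) T'.gp (le_of_eq T'.d2) (low_tri (K := 6) (l := [d, c, g]) T' (by simp) ?_)) (by omega) (by omega)
      rw [hmu]
      intro z hz
      simp only [List.mem_cons, List.not_mem_nil, or_false] at hz
      rcases hz with hz | hz | hz | hz | hz | hz <;> subst hz
      · exact hXd (by simp) (hX hx)
      · rcases hY hy with (h2 | h2) | (h2 | h2) <;> rw [h2]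
        exacts [m0 (by simp), mp (by simp), m0 (by simp), mp (by simp)]
      · exact m0 (by simp)
      · exact m0 (by simp)
      · exact m0 (by simp)
      · exact mh (by simp)
    · -- only `a'`
      right
      rcases hX hx with (h2 | h2) | (h2 | h2)
      · exfalso
        -- `a' = d`
        have h3 := sXR (Or.inl h2)
        rw [hpar] at h3
        have hodd : ¬ Even n := pr_odd h3 s2
        rw [Nat.not_even_iff_odd] at hodd
        obtain ⟨k, hk⟩ := hodd
        have h4 : a' = (FF p q)^[k] (p b) := by rw [ha', hk, wk_odd]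
        have h5 : d = p (q b) := by rw [e1, hp]
        rw [h2, h5, ← p_G hp] at h4
        have h6 : (GG p q)^[k] b = q b := by
          rw [← hp ((GG p q)^[k] b), ← h4, hp]
        exact F_ne_p hq hp (mu_ne hw) hw.ne k b h6
      · exfalso
        have h3 := sXR (Or.inr h2)
        have h4 : p a' = q h := by rw [h2, e2]
        have h5 : q h ∈ s'.1 ↔ g ∈ s.1 := by
          have h6 := (T'.c3.flip T'.wf).sdA T'.wf
          rw [hmu] at h6
          rw [h6, ← ((cd_iff T'.wf).1 T'.c3.1).2]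
          exact hgs
        have h6 : p a' ∈ s'.1 ↔ a' ∈ s'.1 := ((cd_iff T'.wf).1 T'.c1.1).2.symm
        rw [h4] at h6
        exact hsRZ h3 (h6.symm.trans h5)
      · -- `a' = h`
        have h3 := sXZ (Or.inl h2)
        rw [hpar] at h3
        have heven : Even n := pr_even h3 s1
        obtain ⟨k, hk⟩ := heven
        have hk2 : n = 2 * k := by omega
        refine ⟨k, ?_, ?_, ?_⟩
        · rw [← h2, ha', hk2, wk_even]
        · intro j hj
          exact hNS j (by omega)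
        · intro h4
          apply hy
          have h5 : b' = g := by rw [hb', hk2, wk_even, ← h4]
          rw [h5]
          exact T'.c3.1
      · exfalso
        have h3 := sXZ (Or.inr h2)
        have h4 : p a' = q d := by rw [h2, e2, hp]
        have h5 : q d ∈ s'.1 ↔ c ∈ s.1 := by
          have h6 := (T'.c2.flip T'.wf).sdA T'.wf
          rw [hmu] at h6
          rw [h6, ← ((cd_iff T'.wf).1 T'.c2.1).2]
          exact hcs
        have h6 : p a' ∈ s'.1 ↔ a' ∈ s'.1 := ((cd_iff T'.wf).1 T'.c1.1).2.symm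
        rw [h4] at h6
        exact hsRZ (h6.symm.trans h5) h3
  · have hy : Cd p s' b' := hstop.resolve_left hx
    left
    rcases hY hy with h2 | h2
    · obtain ⟨s'', r1, pm, mu2, D⟩ := hitY T' h2 hx
      have hmu2 : NA.mu p s'' = q := mu2.trans hmu
      refine lift ((Goal.pre r1 pm (Goal.here (K := 7) D.gp (by rw [D.d2]; norm_num) (low_duo (K := 6) (l := [a', d, g]) D (by simp) ?_)))) (by omega) (by omega)
      rw [hmu2]
      intro z hz
      simp only [List.mem_cons, List.not_mem_nil, or_false] at hz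
      rcases hz with hz | hz | hz | hz <;> subst hz
      · exact m0 (by simp)
      · exact m0 (by simp)
      · exact m0 (by simp)
      · exact mh (by simp)
    · obtain ⟨s'', r1, pm, mu2, D⟩ := hitY T'.sw23 h2 hx
      have hmu2 : NA.mu p s'' = q := mu2.trans hmu
      refine lift ((Goal.pre r1 pm (Goal.here (K := 7) D.gp (by rw [D.d2]; norm_num) (low_duo (K := 6) (l := [a', d, c]) D (by simp) ?_)))) (by omega) (by omega)
      rw [hmu2]
      intro z hz
      simp only [List.mem_cons, List.not_mem_nil, or_false] at hz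
      rcases hz with hz | hz | hz | hz <;> subst hz
      · exact m0 (by simp)
      · exact mh (by simp)
      · exact m0 (by simp)
      · exact m0 (by simp)

/-- **ROW**: the three mu-defects `L = (a, b)`, `R = (c, d)`, `Z = (g, h)` stand in a row. -/
theorem row {K' k0 : ℕ} (hS : SelfT 10 K' k0) (T : Tri p f s a b c d g h) (hC : Can p (NA.mu p s) r)
    (e1 : NA.mu p s b = p d) (e2 : NA.mu p s h = p (NA.mu p s d)) (s1 : a ∈ s.1 ↔ g ∈ s.1) (s2 : ¬ (a ∈ s.1 ↔ c ∈ s.1)) :
    Goal p r f s (K' + 10) ((k0 + 20) * ((s.1 ++ s.2).length + 1)) := by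
  have hw := T.wf
  have hp := hw.inv
  have hq := NA.mu_mu hw.inv s
  rcases row1 hS T hC e1 e2 s1 s2 with h1 | ⟨k, h1, h2, h3⟩
  · exact h1
  have hc := ((cd_iff hw).1 T.c2.1).2
  have T2 : Tri p f s g h (p c) (NA.mu p s d) a b := T.sw13.fl2
  rcases row1 hS T2 hC e2 (by rw [hq]; exact e1) s1.symm (by rw [← hc]; tauto) with h4 | ⟨k', h4, h5, h6⟩
  · exact h4
  exfalso
  obtain ⟨l1, l2, l3, l4⟩ := T.ag
  -- `k ≤ k'`
  have hk : k ≤ k' := by
    by_contra hlt
    push Not at hlt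
    have h7 := (h2 (2 * k') (by omega)).cd
    rw [wk_even] at h7
    simp only at h7
    have h8 : (GG p (NA.mu p s))^[k'] b = g := by rw [← h4, G_F hp hq]
    rw [h8] at h7
    exact h7 ⟨T.c3.1, l1, l2⟩
  have hk' : k' ≤ k := by
    by_contra hlt
    push Not at hlt
    have h7 := (h5 (2 * k) (by omega)).cd
    rw [wk_even] at h7
    simp only at h7
    have h8 : (GG p (NA.mu p s))^[k] h = a := by rw [← h1, G_F hp hq]
    rw [h8] at h7
    refine h7 ⟨T.c1.1, l1.symm, ?_⟩
    exact fun e => l2 (by rw [e, hp])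
  have hkk : k' = k := le_antisymm hk' hk
  subst hkk
  apply h3
  rw [← h4, G_F hp hq]

end NP
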