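import Pool.Agent.helper3.NP.Row
import Pool.Agent.helper65.D3.PartI

/-!
# MP_c8d30a, exponent 12, Part I: ROW in the form of helper65
-/

set_option autoImplicit false

namespace NP

open D3

theorem rowF (hR : R2stuck_stmt 20 6) : row_stmt 43 50 := by
  intro Ω _ p r f s a b c d g h T hC e1 e2 s1 s2
  have hS : SelfT 10 33 30 := self hR 10
  exact row hS T hC e1 e2 s1 s2

end NP
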