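import Pool.Agent.helper3.NP.Hit

/-!
# MP_c8d30a, exponent 12, Part II.1: two adjacent coloured tokens of different letters, exactly three coloured letters
-/

set_option autoImplicit false

namespace NP

open NTH Equiv NTS
open Pool.Agent.helper32.RH (RTs)

variable {Ω : Type} [DecidableEq Ω] {p : Ω → Ω} {s s' : St Ω} {f : Ω}

/-- a set of tokens of one word which is closed under the successor contains the word. -/
theorem closed_sc (hw : WF p s) {S : Ω → Prop} {c t : Ω} (hc : S c) (hm : c ∈ s.1 ∨ c ∈ s.2) (hS : ∀ z, S z → S (NA.sc s z))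
    (ht1 : t ∈ s.1 → c ∈ s.1) (ht2 : t ∈ s.2 → c ∈ s.2) (htm : t ∈ s.1 ∨ t ∈ s.2) : S t := by
  have hn := List.nodup_append.1 hw.nd
  have key : ∀ (l : List Ω), l.Nodup → c ∈ l → t ∈ l → (∀ z ∈ l, NA.sc s z = l.formPerm z) → S t := by
    intro l hl h1 h2 h3
    have h4 : l.formPerm.IsCycleOn (l.toFinset : Set Ω) := by
      rw [List.coe_toFinset]
      exact hl.isCycleOn_formPerm
    obtain ⟨k, -, hk⟩ := h4.exists_pow_eq (a := c) (b := t) (by simpa using h1) (by simpa using h2)
    have h5 : ∀ k : ℕ, S ((l.formPerm ^ k) c) ∧ (l.formPerm ^ k) c ∈ l := by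
      intro k
      induction k with
      | zero => exact ⟨hc, h1⟩
      | succ k ih =>
        rw [pow_succ', Perm.mul_apply, ← h3 _ ih.2]
        refine ⟨hS _ ih.1, ?_⟩
        rw [h3 _ ih.2]
        exact List.formPerm_apply_mem_of_mem ih.2
    rw [← hk]
    exact (h5 k).1
  rcases htm with h | h
  · exact key s.1 hn.1 (ht1 h) h (fun z hz => NA.sc_A hw.nd hz)
  · exact key s.2 hn.2.1 (ht2 h) h (fun z hz => NA.sc_B hw.nd hz)

/-- exactly three coloured letters: the coloured tokens of the word of `c`. -/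
theorem three (hg : GP p f s) (hD : D2 p s = 6) {c d : Ω} (hc : Cd p s c) (hd : Cd p s d) (hs : d ∈ s.1 ↔ c ∈ s.1) (h1 : d ≠ c) (h2 : d ≠ p c) {t : Ω}
    (ht : Cd p s t) (hst : t ∈ s.1 ↔ c ∈ s.1) : t = c ∨ t = p c ∨ t = d ∨ t = p d := by
  have hw := hg.wf
  -- a letter of the other colour
  obtain ⟨z, hz, hzc⟩ : ∃ z, Cd p s z ∧ ¬ (z ∈ s.1 ↔ c ∈ s.1) := by
    obtain ⟨r, hr⟩ := hg.red
    obtain ⟨b, hb⟩ := hg.blu
    by_cases h : c ∈ s.1
    · exact ⟨b, Or.inr hb, fun e => dj hw (e.2 h) hb.1⟩
    · exact ⟨r, Or.inl hr, fun e => h (e.1 hr.1)⟩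
  by_contra hcon
  push Not at hcon
  obtain ⟨n1, n2, n3, n4⟩ := hcon
  have hp := hw.inv
  have hcs := ((cd_iff hw).1 hc).2
  have hds := ((cd_iff hw).1 hd).2
  have hts := ((cd_iff hw).1 ht).2
  have hzs := ((cd_iff hw).1 hz).2
  have inj : ∀ a b, p a = p b → a = b := fun a b h => by rw [← hp a, h, hp]
  have zne : ∀ w, (w ∈ s.1 ↔ c ∈ s.1) → z ≠ w := by
    rintro w hw' rfl
    exact hzc hw'
  have zne' : ∀ w, (w ∈ s.1 ↔ c ∈ s.1) → p z ≠ w := by
    rintro w hw' rfl
    exact hzc (hzs.trans hw')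
  have e : ({c, p c, d, p d, t, p t, z, p z} : Finset Ω) ⊆ CS p s := by
    intro w hw'
    simp only [Finset.mem_insert, Finset.mem_singleton] at hw'
    rw [mem_CS]
    rcases hw' with rfl | rfl | rfl | rfl | rfl | rfl | rfl | rfl
    exacts [hc, hc.pr hw, hd, hd.pr hw, ht, ht.pr hw, hz, hz.pr hw]
  have hcard : ({c, p c, d, p d, t, p t, z, p z} : Finset Ω).card = 8 := by
    have nd : [c, p c, d, p d, t, p t, z, p z].Nodup := by
      simp only [List.nodup_cons, List.mem_cons, List.not_mem_nil, or_false, not_or, List.nodup_nil, and_true, not_false_eq_true]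
      refine ⟨⟨(hw.ne c).symm, h1.symm, ?_, n1.symm, ?_, ?_, ?_⟩, ⟨h2.symm, ?_, n2.symm, ?_, ?_, ?_⟩, ⟨(hw.ne d).symm, n3.symm, ?_, ?_, ?_⟩,
        ⟨n4.symm, ?_, ?_, ?_⟩, ⟨(hw.ne t).symm, ?_, ?_⟩, ⟨?_, ?_⟩, (hw.ne z).symm⟩
      · exact fun h => h2 (by rw [h, hp])
      · exact fun h => n2 (by rw [h, hp])
      · exact (zne c Iff.rfl).symm
      · exact (zne' c Iff.rfl).symm
      · exact fun h => h1 (inj _ _ h).symm
      · exact fun h => n1 (inj _ _ h).symm
      · exact (zne _ hcs.symm).symm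
      · exact (zne' _ hcs.symm).symm
      · exact fun h => n4 (by rw [h, hp])
      · exact (zne _ hs).symm
      · exact (zne' _ hs).symm
      · exact fun h => n3 (inj _ _ h).symm
      · exact (zne _ (hds.symm.trans hs)).symm
      · exact (zne' _ (hds.symm.trans hs)).symm
      · exact (zne _ hst).symm
      · exact (zne' _ hst).symm
      · exact (zne _ (hts.symm.trans hst)).symm
      · exact (zne' _ (hts.symm.trans hst)).symm
    have e2 : ({c, p c, d, p d, t, p t, z, p z} : Finset Ω) = [c, p c, d, p d, t, p t, z, p z].toFinset := by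
      ext w
      simp
    rw [e2, List.toFinset_card_of_nodup nd]
    rfl
  have := Finset.card_le_card e
  rw [hcard, ← D2_card hw, hD] at this
  omega

/-- **SC**: exactly three coloured letters, two adjacent coloured tokens of different letters: drop, or parallel on both sides. -/
theorem SC (hg : GP p f s) (hD : D2 p s = 6) {c : Ω} (hc : Cd p s c) (hd : Cd p s (NA.sc s c)) (hne : NA.sc s c ≠ p c) :
    Dr p 6 f s ∨ NA.sc s (p (NA.sc s c)) = p c := by
  have hw := hg.wf
  have hp := hw.inv
  have hcm := ((cd_iff hw).1 hc).1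
  have hcs := ((cd_iff hw).1 hc).2
  set d := NA.sc s c with hdd
  have hpd : NA.pd s d = c := by rw [hdd, NA.pd_sc]
  have hdA : d ∈ s.1 ↔ c ∈ s.1 := NA.sc_mem_A hw.nd
  have hdc : d ≠ c := sc_ne hw hc Iff.rfl hcm
  have hdds := ((cd_iff hw).1 hd).2
  have inj : ∀ a b, p a = p b → a = b := fun a b h => by rw [← hp a, h, hp]
  have T := fun {t : Ω} => three hg hD hc hd hdA hdc hne (t := t)
  have scA : ∀ {t : Ω}, (t ∈ s.1 ↔ c ∈ s.1) → (NA.sc s t ∈ s.1 ↔ c ∈ s.1) := fun h => (NA.sc_mem_A hw.nd).trans h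
  have hpdA : p d ∈ s.1 ↔ c ∈ s.1 := hdds.symm.trans hdA
  have hpcA : p c ∈ s.1 ↔ c ∈ s.1 := hcs.symm
  have hdpd : d ≠ p d := (hw.ne d).symm
  have scinj : ∀ {a b : Ω}, NA.sc s a = NA.sc s b → a = b := fun h => (NA.sc s).injective h
  have fx : ∀ {t : Ω}, Cd p s t → (t ∈ s.1 ↔ c ∈ s.1) → NA.sc s t ≠ t := fun ht hst => sc_ne hw hc hst ht.mem
  by_cases h1 : Cd p s (NA.sc s (p d))
  · rcases T h1 (scA hpdA) with e | e | e | e
    · -- sc (p d) = c
      have hpc : NA.pd s c = p d := by rw [← e, NA.pd_sc]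
      by_cases h2 : Cd p s (NA.sc s (p c))
      · rcases T h2 (scA hpcA) with e2 | e2 | e2 | e2
        · exact (hdc (inj _ _ (scinj (e.trans e2.symm)))).elim
        · exact (fx (hc.pr hw) hpcA e2).elim
        · exact ((hw.ne c) (scinj (e2.trans hdd))).elim
        · -- sc (p c) = p d
          have hppd : NA.pd s (p d) = p c := by rw [← e2, NA.pd_sc]
          by_cases h3 : Cd p s (NA.sc s d)
          · rcases T h3 (scA hdA) with e3 | e3 | e3 | e3
            · exact (hdpd (scinj (e3.trans e.symm))).elim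
            · -- a closed word
              exfalso
              have hS : ∀ z, (z = c ∨ z = p c ∨ z = d ∨ z = p d) → (NA.sc s z = c ∨ NA.sc s z = p c ∨ NA.sc s z = d ∨ NA.sc s z = p d) := by
                rintro z (rfl | rfl | rfl | rfl)
                · exact Or.inr (Or.inr (Or.inl hdd.symm))
                · exact Or.inr (Or.inr (Or.inr e2))
                · exact Or.inr (Or.inl e3)
                · exact Or.inl e
              have hfB : f ∈ s.2 := List.mem_of_getLast? hg.last
              have hall : ∀ t, Cd p s t → (t ≠ f ∧ t ≠ p f) := fun t ht => ⟨ht.nf hg, ht.nf' hg⟩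
              rcases hcm with h5 | h5
              · have := closed_sc hw (S := fun z => z = c ∨ z = p c ∨ z = d ∨ z = p d) (c := c) (t := p f) (Or.inl rfl) (Or.inl h5) hS
                  (fun _ => h5) (fun h => (dj hw hg.fA h).elim) (Or.inl hg.fA)
                rcases this with h6 | h6 | h6 | h6
                · exact (hall c hc).2 h6.symm
                · exact (hall _ (hc.pr hw)).2 h6.symm
                · exact (hall d hd).2 h6.symm
                · exact (hall _ (hd.pr hw)).2 h6.symm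
              · have := closed_sc hw (S := fun z => z = c ∨ z = p c ∨ z = d ∨ z = p d) (c := c) (t := f) (Or.inl rfl) (Or.inr h5) hS
                  (fun h => (dj hw h hfB).elim) (fun _ => h5) (Or.inr hfB)
                rcases this with h6 | h6 | h6 | h6
                · exact (hall c hc).1 h6.symm
                · exact (hall _ (hc.pr hw)).1 h6.symm
                · exact (hall d hd).1 h6.symm
                · exact (hall _ (hd.pr hw)).1 h6.symm
            · exact (fx hd hdA e3).elim
            · exact (hne (scinj (e3.trans e2.symm))).elim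
          · left
            obtain ⟨s', r, a, -⟩ := yhit hg (u := d) (v := p c) ⟨hd, hppd⟩ h3 (hc.pr hw) hne
            exact a.dr r
      · left
        obtain ⟨s', r, a, -⟩ := yhit hg (u := p c) (v := p d) ⟨hc.pr hw, by rw [hp]; exact hpc⟩ h2 (hd.pr hw) (fun h => hdc (inj _ _ h).symm)
        exact a.dr r
    · exact Or.inr e
    · -- sc (p d) = d
      have := scinj (e.trans hdd)
      exact (hne (by rw [← this, hp])).elim
    · exact (fx (hd.pr hw) hpdA e).elim
  · left
    obtain ⟨s', r, a, -⟩ := yhit hg (u := p d) (v := c) ⟨hd.pr hw, by rw [hp]; exact hpd⟩ h1 hc (fun h => hne (by rw [← h, hp]))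
    exact a.dr r

end NP
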