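import Pool.Agent.helper3.NP.Base
import Pool.Agent.helper32.RH.Drop

/-!
# MP_c8d30a, exponent 12, Part II.4: one step of a letter walk
-/

set_option autoImplicit false

namespace NP

open NTH Equiv NTS
open Pool.Agent.helper32.RH (RTs MvO Mvd MvQ MvdQ Col ColQ RHO' RHOQ')

variable {Ω : Type} [DecidableEq Ω] {p : Ω → Ω} {s s' : St Ω} {f : Ω}

/-- flipping two tokens: the defects of an involution. -/
theorem def_flip {T A A' : Ω → Prop} {q : Ω → Ω} (hq : ∀ z, q (q z) = z) (hn : ∀ z, q z ≠ z) (hT : ∀ z, T z → T (q z)) {a b : Ω}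
    (hA' : ∀ z, T z → (A' z ↔ ((A z ∧ z ≠ a ∧ z ≠ b) ∨ (¬ A z ∧ (z = a ∨ z = b))))) (hTa : T a) (hTb : T b)
    (ha : A a ↔ A (q a)) (hb : ¬ (A b ↔ A (q b))) (z : Ω) :
    (T z ∧ (A' z ↔ A' (q z))) ↔ ((T z ∧ (A z ↔ A (q z))) ∧ z ≠ a ∧ z ≠ q a) ∨ z = b ∨ z = q b := by
  have hab : a ≠ b := by
    rintro rfl
    exact hb ha
  have hqab : q a ≠ b := by
    rintro rfl
    rw [hq] at hb
    exact hb ha.symm
  have hqba : q b ≠ a := by
    rintro rfl
    exact hqab (hq b)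
  have hqa := hn a
  have hqb := hn b
  have hqq : q a ≠ q b := fun h => hab (by rw [← hq a, h, hq])
  have hTqa := hT a hTa
  have hTqb := hT b hTb
  have a1 : A' a ↔ ¬ A a := by rw [hA' a hTa]; simp
  have a3 : A' b ↔ ¬ A b := by rw [hA' b hTb]; simp
  have a2 : A' (q a) ↔ A (q a) := by rw [hA' _ hTqa]; simp [hqa, hqab]
  have a4 : A' (q b) ↔ A (q b) := by rw [hA' _ hTqb]; simp [hqb, hqba]
  by_cases h1 : z = a
  · subst h1
    rw [a1, a2, ha]
    simp [hab, Ne.symm hqba]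
  by_cases h2 : z = q a
  · subst h2
    rw [hq, a1, a2, ← ha]
    simp [hqab, hqq]
  by_cases h3 : z = b
  · subst h3
    rw [a3, a4]
    simp only [true_or, or_true, iff_true]
    exact ⟨hTb, by (first | grind | tauto)⟩
  by_cases h4 : z = q b
  · subst h4
    rw [hq, a3, a4]
    simp only [true_or, or_true, iff_true]
    exact ⟨hTqb, by (first | grind | tauto)⟩
  have h5 : q z ≠ a := fun h => h2 (by rw [← h, hq])
  have h6 : q z ≠ b := fun h => h4 (by rw [← h, hq])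
  by_cases hz : T z
  · have a5 : A' z ↔ A z := by rw [hA' z hz]; simp [h1, h3]
    have a6 : A' (q z) ↔ A (q z) := by rw [hA' _ (hT z hz)]; simp [h5, h6]
    rw [a5, a6]
    simp [h1, h2, h3, h4]
  · simp [hz, h3, h4]

theorem mu_ne (hw : WF p s) (z : Ω) : NA.mu p s z ≠ z := by
  intro h
  have h1 : NA.sc s (NA.mu p s z) = NA.sc s z := congrArg _ h
  rw [NA.mu_eq_pd, NA.sc_pd] at h1
  exact hw.ne _ h1

theorem md_iff' (hw : WF p s) {z : Ω} : MD p s z ↔ (z ∈ s.1 ∨ z ∈ s.2) ∧ (z ∈ s.1 ↔ NA.mu p s z ∈ s.1) := by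
  constructor
  · rintro (h | h)
    · exact ⟨Or.inl h.1, iff_of_true h.1 h.2⟩
    · exact ⟨Or.inr h.1, iff_of_false (fun h1 => dj hw h1 h.1) (fun h1 => dj hw h1 h.2)⟩
  · rintro ⟨h | h, h1⟩
    · exact Or.inl ⟨h, h1.1 h⟩
    · rcases mu_mem hw (Or.inr h) with h2 | h2
      · exact absurd h (fun h3 => dj hw (h1.2 h2) h3)
      · exact Or.inr ⟨h, h2⟩

/-- the partner of a mixed token is in the other word. -/
theorem side_p (hw : WF p s) {u v : Ω} (hv : v ∈ s.1 ∨ v ∈ s.2) (h2 : ¬ Cd p s v) (a1 : v ∈ s.1 ↔ u ∈ s.1) (a2 : v ∈ s.2 ↔ u ∈ s.2) :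
    (p v ∈ s.1 ↔ u ∈ s.2) ∧ (p v ∈ s.2 ↔ u ∈ s.1) := by
  rcases not_cd hw hv h2 with ⟨b1, b2⟩ | ⟨b1, b2⟩
  · have b3 : p v ∉ s.1 := fun h => dj hw h b2
    have b4 : u ∉ s.2 := fun h => dj hw b1 (a2.2 h)
    exact ⟨iff_of_false b3 b4, iff_of_true b2 (a1.1 b1)⟩
  · have b3 : p v ∉ s.2 := fun h => dj hw b2 h
    have b4 : u ∉ s.1 := fun h => dj hw (a1.2 h) b1
    exact ⟨iff_of_true b2 (a2.1 b1), iff_of_false b3 b4⟩

/-- the result of a step of a letter walk with the coupled pair `u, v`. -/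
structure WS (p : Ω → Ω) (f : Ω) (s : St Ω) (u v : Ω) (s' : St Ω) : Prop where
  gp : GP p f s'
  perm : (s'.1 ++ s'.2).Perm (s.1 ++ s.2)
  d2 : D2 p s' = D2 p s
  mu : NA.mu p s' = NA.mu p s
  m1 : ∀ z, z ∈ s'.1 ↔ (z ∈ s.1 ∧ z ≠ u ∧ z ≠ v) ∨ ((z = u ∨ z = v) ∧ u ∈ s.2)
  m2 : ∀ z, z ∈ s'.2 ↔ (z ∈ s.2 ∧ z ≠ u ∧ z ≠ v) ∨ ((z = u ∨ z = v) ∧ u ∈ s.1)
  cd : ∀ z, Cd p s' z ↔ (Cd p s z ∧ z ≠ u ∧ z ≠ p u) ∨ z = v ∨ z = p v
  md : ∀ z, MD p s' z ↔ (MD p s z ∧ z ≠ v ∧ z ≠ NA.mu p s v) ∨ z = u ∨ z = NA.mu p s u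
  pv : NA.pd s' (p v) = u
  pv' : NA.pd s' v = NA.mu p s u
  ot : ∀ w, Cd p s w → w ≠ u → w ≠ p u → NA.pd s' w = NA.pd s w
  fr : Fr p s' (p v)

theorem WS.cp {u v : Ω} (hw : WF p s) (h : WS p f s u v s') : Cp p s' (p v) (NA.mu p s u) := by
  refine ⟨(h.cd _).2 (Or.inr (Or.inr rfl)), ?_⟩
  rw [hw.inv]
  exact h.pv'

/-- the combinatorial part. -/
theorem WS.mk' {u v : Ω} (hg : GP p f s) (hc : Cp p s u v) (hf : Fr p s u) (h1 : ¬ Cd p s (NA.sc s u)) (h2 : ¬ Cd p s v)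
    (wf : WF p s') (last : s'.2.getLast? = some f) (vf : v ≠ f) (vf' : v ≠ p f)
    (mu : NA.mu p s' = NA.mu p s)
    (m1 : ∀ z, z ∈ s'.1 ↔ (z ∈ s.1 ∧ z ≠ u ∧ z ≠ v) ∨ ((z = u ∨ z = v) ∧ u ∈ s.2))
    (m2 : ∀ z, z ∈ s'.2 ↔ (z ∈ s.2 ∧ z ≠ u ∧ z ≠ v) ∨ ((z = u ∨ z = v) ∧ u ∈ s.1))
    (pv : NA.pd s' (p v) = u) (pv' : NA.pd s' v = NA.mu p s u)
    (ot : ∀ w, Cd p s w → w ≠ u → w ≠ p u → NA.pd s' w = NA.pd s w) : WS p f s u v s' := by
  have hw := hg.wf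
  have hu := (cd_iff hw).1 hc.1
  have hvA := hc.sdA hw
  have hvB := hc.sdB hw
  have hvm := hc.vm hw
  have huv : u ≠ v := by
    rintro rfl
    exact h2 hc.1
  have hpuv : p u ≠ v := by
    rintro rfl
    exact h2 (hc.1.pr hw)
  have hT : ∀ z, (z ∈ s'.1 ∨ z ∈ s'.2) ↔ (z ∈ s.1 ∨ z ∈ s.2) := by
    intro z
    rw [m1, m2]
    by_cases e1 : z = u
    · subst e1
      (first | grind | tauto)
    · by_cases e2 : z = v
      · subst e2
        (first | grind | tauto)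
      · (first | grind | tauto)
  have hA' : ∀ z, (z ∈ s.1 ∨ z ∈ s.2) → (z ∈ s'.1 ↔ ((z ∈ s.1 ∧ z ≠ u ∧ z ≠ v) ∨ (¬ z ∈ s.1 ∧ (z = u ∨ z = v)))) := by
    intro z hz
    rw [m1]
    have hd : ∀ a, a ∈ s.1 ∨ a ∈ s.2 → (a ∈ s.2 ↔ ¬ a ∈ s.1) := fun a ha =>
      ⟨fun h3 h4 => dj hw h4 h3, fun h3 => ha.resolve_left h3⟩
    by_cases e1 : z = u
    · subst e1
      have := hd z hz
      (first | grind | tauto)
    · by_cases e2 : z = v
      · subst e2
        have := hd z hz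
        (first | grind | tauto)
      · (first | grind | tauto)
  have hA'' : ∀ z, (z ∈ s.1 ∨ z ∈ s.2) → (z ∈ s'.1 ↔ ((z ∈ s.1 ∧ z ≠ v ∧ z ≠ u) ∨ (¬ z ∈ s.1 ∧ (z = v ∨ z = u)))) := by
    intro z hz
    rw [hA' z hz]
    (first | grind | tauto)
  have cd : ∀ z, Cd p s' z ↔ (Cd p s z ∧ z ≠ u ∧ z ≠ p u) ∨ z = v ∨ z = p v := by
    intro z
    rw [cd_iff wf, cd_iff hw, hT]
    exact def_flip (T := fun z => z ∈ s.1 ∨ z ∈ s.2) (A := fun z => z ∈ s.1) (A' := fun z => z ∈ s'.1) hw.inv hw.ne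
      (fun z hz => cas hw hz) hA' hu.1 hvm hu.2 (fun h3 => h2 ((cd_iff hw).2 ⟨hvm, h3⟩)) z
  have md : ∀ z, MD p s' z ↔ (MD p s z ∧ z ≠ v ∧ z ≠ NA.mu p s v) ∨ z = u ∨ z = NA.mu p s u := by
    intro z
    rw [md_iff' wf, md_iff' hw, hT, mu]
    exact def_flip (T := fun z => z ∈ s.1 ∨ z ∈ s.2) (A := fun z => z ∈ s.1) (A' := fun z => z ∈ s'.1) (NA.mu_mu hw.inv s) (mu_ne hw)
      (fun z hz => mu_mem hw hz) hA'' hvm hu.1 ((md_iff' hw).1 (hc.md hw)).2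
      (fun h3 => h1 ((md_iff hw).1 ((md_iff' hw).2 ⟨hu.1, h3⟩))) z
  have hred : ∀ d, NA.Red p s d → d ≠ u → d ≠ p u → NA.Red p s' d ∧ d ≠ v ∧ d ≠ p v := by
    intro d hd d1 d2
    have c1 : Cd p s d := Or.inl hd
    have c2 : Cd p s (p d) := c1.pr hw
    have e1 : d ≠ v := fun e => h2 (e ▸ c1)
    have e2 : p d ≠ v := fun e => h2 (e ▸ c2)
    have e3 : p d ≠ u := fun e => d2 (by rw [← e, hw.inv])
    refine ⟨⟨(m1 d).2 (Or.inl ⟨hd.1, d1, e1⟩), (m1 _).2 (Or.inl ⟨hd.2, e3, e2⟩)⟩, e1, fun e => e2 (by rw [e, hw.inv])⟩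
  have hblu : ∀ d, NA.Blu p s d → d ≠ u → d ≠ p u → NA.Blu p s' d ∧ d ≠ v ∧ d ≠ p v := by
    intro d hd d1 d2
    have c1 : Cd p s d := Or.inr hd
    have c2 : Cd p s (p d) := c1.pr hw
    have e1 : d ≠ v := fun e => h2 (e ▸ c1)
    have e2 : p d ≠ v := fun e => h2 (e ▸ c2)
    have e3 : p d ≠ u := fun e => d2 (by rw [← e, hw.inv])
    refine ⟨⟨(m2 d).2 (Or.inl ⟨hd.1, d1, e1⟩), (m2 _).2 (Or.inl ⟨hd.2, e3, e2⟩)⟩, e1, fun e => e2 (by rw [e, hw.inv])⟩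
  obtain ⟨⟨d, d1, d2, d3⟩, ⟨b, b1, b2, b3⟩⟩ := hf
  obtain ⟨r1, r2, r3⟩ := hred d d1 d2 d3
  obtain ⟨q1, q2, q3⟩ := hblu b b1 b2 b3
  have hd2 : D2 p s' = D2 p s := by
    rw [D2_card hw, D2_card wf]
    have e1 : CS p s' = insert v (insert (p v) ((CS p s \ {u, p u}))) := by
      ext z
      rw [mem_CS, cd, Finset.mem_insert, Finset.mem_insert, Finset.mem_sdiff, mem_CS, Finset.mem_insert, Finset.mem_singleton]
      (first | grind | tauto)
    have e2 : ({u, p u} : Finset Ω) ⊆ CS p s := by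
      intro z hz
      rw [Finset.mem_insert, Finset.mem_singleton] at hz
      rw [mem_CS]
      rcases hz with rfl | rfl
      · exact hc.1
      · exact hc.1.pr hw
    have n1 : p v ∉ CS p s \ {u, p u} := by
      rw [Finset.mem_sdiff, mem_CS, Cd.p_iff hw]
      (first | grind | tauto)
    have n2 : v ∉ insert (p v) (CS p s \ {u, p u}) := by
      rw [Finset.mem_insert, Finset.mem_sdiff, mem_CS]
      have := hw.ne v
      (first | grind | tauto)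
    have n3 : ({u, p u} : Finset Ω).card = 2 := Finset.card_pair (hw.ne u).symm
    have n4 := Finset.card_le_card e2
    rw [e1, Finset.card_insert_of_notMem n2, Finset.card_insert_of_notMem n1, Finset.card_sdiff_of_subset e2, n3]
    omega
  have hperm : (s'.1 ++ s'.2).Perm (s.1 ++ s.2) := by
    rw [List.perm_ext_iff_of_nodup wf.nd hw.nd]
    intro z
    rw [List.mem_append, List.mem_append]
    exact hT z
  refine ⟨⟨wf, last, ?_, ⟨d, r1⟩, ⟨b, q1⟩⟩, hperm, hd2, mu, m1, m2, cd, md, pv, pv', ot, ⟨⟨d, r1, r3, ?_⟩, ⟨b, q1, q3, ?_⟩⟩⟩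
  · rw [m1]
    left
    refine ⟨hg.fA, ?_, fun e => vf' e.symm⟩
    rintro rfl
    have h3 : p (p f) ∈ s.1 ∨ p (p f) ∈ s.2 := cas hw (Or.inl hg.fA)
    have h4 : f ∈ s.2 := List.mem_of_getLast? hg.last
    rcases hc.1 with h5 | h5
    · have := h5.2
      rw [hw.inv] at this
      exact dj hw this h4
    · exact dj hw hg.fA h5.1
  · rw [hw.inv]
    exact r2
  · rw [hw.inv]
    exact q2

/-- **one step of a letter walk.** -/
theorem wstep {u v : Ω} (hg : GP p f s) (hc : Cp p s u v) (hf : Fr p s u) (hS : ¬ Stop p f s u v) :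
    ∃ s', RTs p 6 s s' ∧ WS p f s u v s' := by
  unfold Stop at hS
  push Not at hS
  obtain ⟨h1, h2, vf, vf'⟩ := hS
  have hw := hg.wf
  have hp := hw.inv
  have hu := (cd_iff hw).1 hc.1
  have hvm := hc.vm hw
  have huv : u ≠ v := by
    rintro rfl
    exact h2 hc.1
  have hpuv : p u ≠ v := by
    rintro rfl
    exact h2 (hc.1.pr hw)
  have hupv : u ≠ p v := fun e => hpuv (by rw [e, hp])
  have hfB : f ∈ s.2 := List.mem_of_getLast? hg.last
  have hcf : ¬ Cd p s f := by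
    rintro (h5 | h5)
    · exact dj hw h5.1 hfB
    · exact dj hw hg.fA h5.2
  have huf : u ≠ f := fun e => hcf (e ▸ hc.1)
  have huf' : u ≠ p f := fun e => hcf (by
    have := hc.1.pr hw
    rwa [e, hp] at this)
  have hscv : NA.sc s v = p u := by rw [← hc.2, NA.sc_pd]
  have hscu : NA.sc s u ∈ s.1 ∨ NA.sc s u ∈ s.2 := sc_mem hw hu.1
  have hpvf : p v ≠ f := fun e => vf' (by rw [← e, hp])
  have hpvf' : p v ≠ p f := fun e => vf (by rw [← hp v, e, hp])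
  -- the sides of `p v`
  have side : (v ∈ s.1 ∧ p v ∈ s.2) ∨ (v ∈ s.2 ∧ p v ∈ s.1) := not_cd hw hvm h2
  by_cases hq : NA.sc s u = v
  · -- the case `X1 = Y2`
    have hmv : MvQ p s f u (p v) := by
      refine ⟨hw, hg.last, hg.fA, List.mem_append.2 hu.1, ?_, ?_, hupv, ?_, huf, huf', hpvf, hpvf'⟩
      · rw [hp, hq]
      · rw [hp, hscv]
      · rw [hp]
        exact huv
    have hcol : ColQ p s u (p v) := by
      obtain ⟨⟨d, d1, d2, d3⟩, ⟨b, b1, b2, b3⟩⟩ := hf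
      rcases hc.1 with h3 | h3
      · exact ColQ.red b h3.1 h3.2 b1.1 b1.2 (fun _ => ⟨d, d1.1, d1.2, d2, d3⟩)
      · exact ColQ.blue d h3.1 h3.2 d1.1 d1.2 (fun _ => ⟨b, b1.1, b1.2, b2, b3⟩)
    obtain ⟨s', r, m⟩ := RHOQ' hmv hcol
    refine ⟨s', r, ?_⟩
    have hsc : NA.sc s' = (swap u (p u) * swap (p v) v) * NA.sc s := by
      rw [m.sc, hp, mul_assoc]
    have hvpv : v ≠ p v := (hw.ne v).symm
    have hupu : u ≠ p u := (hw.ne u).symm
    have hpupv : p u ≠ p v := fun e => huv (by rw [← hp u, e, hp])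
    have val : ∀ z, z ≠ u → z ≠ p u → z ≠ v → z ≠ p v → (swap u (p u) * swap (p v) v) z = z := by
      intro z z1 z2 z3 z4
      rw [Perm.mul_apply, swap_apply_of_ne_of_ne z4 z3, swap_apply_of_ne_of_ne z1 z2]
    have vu : (swap u (p u) * swap (p v) v) u = p u := by
      rw [Perm.mul_apply, swap_apply_of_ne_of_ne hupv huv, swap_apply_left]
    have vpu : (swap u (p u) * swap (p v) v) (p u) = u := by
      rw [Perm.mul_apply, swap_apply_of_ne_of_ne hpupv hpuv, swap_apply_right]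
    have vv : (swap u (p u) * swap (p v) v) v = p v := by
      rw [Perm.mul_apply, swap_apply_right, swap_apply_of_ne_of_ne hupv.symm hpupv.symm]
    have vpv : (swap u (p u) * swap (p v) v) (p v) = v := by
      rw [Perm.mul_apply, swap_apply_left, swap_apply_of_ne_of_ne huv.symm hpuv.symm]
    have comm : ∀ z, (swap u (p u) * swap (p v) v) (p z) = p ((swap u (p u) * swap (p v) v) z) := by
      intro z
      by_cases z1 : z = u
      · subst z1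
        rw [vpu, vu, hp]
      by_cases z2 : z = p u
      · subst z2
        rw [hp, vu, vpu]
      by_cases z3 : z = v
      · subst z3
        rw [vpv, vv, hp]
      by_cases z4 : z = p v
      · subst z4
        rw [hp, vv, vpv]
      rw [val z z1 z2 z3 z4, val]
      · exact fun e => z2 (by rw [← e, hp])
      · exact fun e => z1 (by rw [← hp z, e, hp])
      · exact fun e => z4 (by rw [← e, hp])
      · exact fun e => z3 (by rw [← hp z, e, hp])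
    have hsame := side_p hw hvm h2 (hc.sdA hw) (hc.sdB hw)
    refine WS.mk' hg hc hf h1 h2 m.wf m.last vf vf' (mu_of_comm hsc comm) ?_ ?_ ?_ ?_ ?_
    · intro z
      rw [m.m1, hp, hsame.1]
    · intro z
      rw [m.m2, hp, hsame.2]
    · exact (pd_of_val hsc vv).trans (NA.pd_of_sc hq)
    · rw [pd_of_val hsc vpv, NA.mu_eq_pd, hq]
    · intro w w1 w2 w3
      exact pd_of_val hsc (val w w2 w3 (fun e => h2 (e ▸ w1)) (fun e => h2 (by
        have := w1.pr hw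
        rwa [e, hp] at this)))
  · -- the general case
    have hx1 : ¬ Cd p s (p (NA.sc s u)) := by rwa [Cd.p_iff hw]
    have hne : u ≠ NA.sc s u := by
      intro e
      exact h1 (e ▸ hc.1)
    have hcx : NA.sc s u ≠ p v := by
      intro e
      rcases hc.1 with h3 | h3
      · have h4 : NA.sc s u ∈ s.1 := (NA.sc_mem_A hw.nd).2 h3.1
        have h5 : v ∈ s.1 := (hc.sdA hw).2 h3.1
        rcases side with h6 | h6
        · exact dj hw h4 (e ▸ h6.2)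
        · exact dj hw h5 h6.1
      · have h4 : NA.sc s u ∈ s.2 := (NA.sc_mem_B hw.nd).2 h3.1
        have h5 : v ∈ s.2 := (hc.sdB hw).2 h3.1
        rcases side with h6 | h6
        · exact dj hw h6.1 h5
        · exact dj hw (e ▸ h6.2) h4
    have hmv : MvO p s f u (NA.sc s u) (p v) := by
      refine ⟨hw, hg.last, hg.fA, List.mem_append.2 hu.1, rfl, ?_, hne, ?_, hupv, ?_, hcx, ?_, huf, huf', hpvf, hpvf'⟩
      · rw [hp, hscv]
      · intro e
        exact hx1 (e ▸ hc.1)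
      · rw [hp]
        exact huv
      · rw [hp]
        exact hq
    have hcol : Col p s u (NA.sc s u) (p v) := by
      obtain ⟨⟨d, d1, d2, d3⟩, ⟨b, b1, b2, b3⟩⟩ := hf
      rcases hc.1 with h3 | h3
      · exact Col.red b h3.1 h3.2 b1.1 b1.2 (fun _ _ => ⟨d, d1.1, d1.2, d2, d3⟩)
      · exact Col.blue d h3.1 h3.2 d1.1 d1.2 (fun _ _ => ⟨b, b1.1, b1.2, b2, b3⟩)
    obtain ⟨s', r, m⟩ := RHO' hmv hcol
    refine ⟨s', r, ?_⟩
    have hsame := side_p hw hvm h2 (hc.sdA hw) (hc.sdB hw)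
    have hsame2 := side_p hw hscu h1 (NA.sc_mem_A hw.nd) (NA.sc_mem_B hw.nd) (u := u)
    refine WS.mk' hg hc hf h1 h2 m.wf m.last vf vf' (mvd_mu hmv m) ?_ ?_ (mvd_pd_y hmv m) ?_ ?_
    · intro z
      rw [m.m1, hp, hsame.1, hsame2.1, or_and_right]
    · intro z
      rw [m.m2, hp, hsame.2, hsame2.2, or_and_right]
    · have := mvd_pd_py hmv m
      rw [hp] at this
      rw [this]
      rfl
    · intro w w1 w2 w3
      have w4 : ∀ c, ¬ Cd p s c → w ≠ c := fun c hc' e => hc' (e ▸ w1)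
      apply mvd_pd_o m w2 (w4 _ h1) (w4 _ (by rwa [Cd.p_iff hw])) w3 (w4 _ hx1)
      rw [hp]
      exact w4 _ h2

end NP
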