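import Pool.Agent.helper3.NP.SC

/-!
# MP_c8d30a, exponent 12, Part I, D = 2: paths of the successor
-/

set_option autoImplicit false

namespace NP

open NTH Equiv NTS

/-- a part of a chain is a chain. -/
theorem chain_mid {α : Type} {R : α → α → Prop} {l l' : List α} (h : List.IsChain R l) (h' : l' <:+: l) : List.IsChain R l' := by
  obtain ⟨a, b, rfl⟩ := h'
  exact h.left_of_append.right_of_append

section pure
variable {Ω : Type} {S S' : Ω → Ω} {g g' h b q : Ω}

/-- the path of `S` from `v` ends at `g` after `n` steps, and avoids `g` and `h` before. -/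
def To (S : Ω → Ω) (g h : Ω) : ℕ → Ω → Prop
  | 0, v => v = g
  | n + 1, v => (v ≠ g ∧ v ≠ h) ∧ To S g h n (S v)

theorem To.uniq : ∀ {n k : ℕ} {v : Ω}, To S g h n v → To S g h k v → n = k
  | 0, 0, _, _, _ => rfl
  | 0, _ + 1, _, h1, h2 => (h2.1.1 h1).elim
  | _ + 1, 0, _, h1, h2 => (h1.1.1 h2).elim
  | _ + 1, _ + 1, _, h1, h2 => by rw [To.uniq h1.2 h2.2]

theorem To.last : ∀ {n : ℕ} {v : Ω}, To S g h (n + 1) v → ∃ c, To S g h 1 c
  | 0, v, h1 => ⟨v, h1⟩
  | _ + 1, _, h1 => To.last h1.2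

theorem To.congr : ∀ {n : ℕ} {v : Ω}, To S g h n v → (∀ i w, i < n → To S g h i (S w) → S' w = S w) → To S' g h n v
  | 0, _, h1, _ => h1
  | n + 1, v, h1, h2 => by
    refine ⟨h1.1, ?_⟩
    rw [h2 n v (Nat.lt_succ_self n) h1.2]
    exact To.congr h1.2 (fun i w hi hw => h2 i w (Nat.lt_succ_of_lt hi) hw)

/-- another target. -/
theorem To.re : ∀ {n : ℕ} {u : Ω}, To S g h n (S u) →
    (∀ i w, i ≤ n → To S g h i (S w) → (S w = g → S' w = g') ∧ (S w ≠ g → S' w = S w ∧ S w ≠ g')) → To S' g' h n (S' u)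
  | 0, u, h1, h2 => (h2 0 u (le_refl _) h1).1 h1
  | n + 1, u, h1, h2 => by
    obtain ⟨h3, h4⟩ := (h2 (n + 1) u (le_refl _) h1).2 h1.1.1
    rw [h3]
    refine ⟨⟨h4, h1.1.2⟩, ?_⟩
    exact To.re h1.2 (fun i w hi hw => h2 i w (Nat.le_succ_of_le hi) hw)

/-- a new token `b` before `q`. -/
theorem To.ins : ∀ {n : ℕ} {v : Ω}, To S g h n v → b ≠ g → b ≠ h → S' b = q →
    (∀ i w, i < n → To S g h i (S w) → (S w = q → S' w = b) ∧ (S w ≠ q → S' w = S w)) → To S' g h n v ∨ To S' g h (n + 1) v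
  | 0, _, h1, _, _, _, _ => Or.inl h1
  | n + 1, v, h1, b1, b2, hb, h2 => by
    obtain ⟨h3, h4⟩ := h2 n v (Nat.lt_succ_self n) h1.2
    by_cases h5 : S v = q
    · right
      refine ⟨h1.1, ?_⟩
      rw [h3 h5]
      refine ⟨⟨b1, b2⟩, ?_⟩
      rw [hb, ← h5]
      refine To.congr h1.2 (fun i w hi hw => (h2 i w (Nat.lt_succ_of_lt hi) hw).2 (fun h6 => ?_))
      rw [h6, ← h5] at hw
      have := To.uniq hw h1.2
      omega
    · rcases To.ins h1.2 b1 b2 hb (fun i w hi hw => h2 i w (Nat.lt_succ_of_lt hi) hw) with h6 | h6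
      · left
        refine ⟨h1.1, ?_⟩
        rw [h4 h5]
        exact h6
      · right
        refine ⟨h1.1, ?_⟩
        rw [h4 h5]
        exact h6

theorem To.of_chain : ∀ {l : List Ω} {w : Ω}, List.IsChain (fun a b => S a = b) (w :: (l ++ [g])) → (∀ v ∈ l, v ≠ g ∧ v ≠ h) →
    To S g h l.length (S w)
  | [], w, h1, _ => by
    simp only [List.nil_append, List.isChain_cons_cons, List.isChain_singleton, and_true] at h1
    exact h1
  | a :: l, w, h1, h2 => by
    rw [List.cons_append, List.isChain_cons_cons] at h1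
    rw [h1.1]
    refine ⟨h2 a (by simp), ?_⟩
    exact To.of_chain h1.2 (fun v hv => h2 v (by simp [hv]))

end pure

variable {Ω : Type} [DecidableEq Ω] {p : Ω → Ω} {s s' : St Ω} {f : Ω}

theorem chain_fp {l : List Ω} (hn : l.Nodup) : List.IsChain (fun a b => l.formPerm a = b) l := by
  rw [List.isChain_iff_getElem]
  intro i hi
  exact List.formPerm_apply_lt_getElem l hn i hi

theorem To.memA (hw : WF p s) {g h : Ω} : ∀ {n : ℕ} {v : Ω}, To (NA.sc s) g h n v → g ∈ s.1 → v ∈ s.1
  | 0, v, h1, hg => by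
    have h1 : v = g := h1
    rw [h1]
    exact hg
  | n + 1, v, h1, hg => (NA.sc_mem_A hw.nd).1 (To.memA hw h1.2 hg)

theorem To.memB (hw : WF p s) {g h : Ω} : ∀ {n : ℕ} {v : Ω}, To (NA.sc s) g h n v → g ∈ s.2 → v ∈ s.2
  | 0, v, h1, hg => by
    have h1 : v = g := h1
    rw [h1]
    exact hg
  | n + 1, v, h1, hg => (NA.sc_mem_B hw.nd).1 (To.memB hw h1.2 hg)

/-- the path to the last token of `B`. -/
theorem to_last (hg : GP p f s) {v : Ω} (hv : v ∈ s.2) : ∃ j ≤ s.2.length, To (NA.sc s) f f j v := by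
  have hn := List.nodup_append.1 hg.wf.nd
  by_cases hvf : v = f
  · exact ⟨0, Nat.zero_le _, hvf⟩
  obtain ⟨U, V, e⟩ := List.append_of_mem hv
  have hl := hg.last
  rw [e, List.getLast?_append_of_ne_nil _ (by simp)] at hl
  have hV : V ≠ [] := by
    rintro rfl
    simp at hl
    exact hvf hl
  rw [List.getLast?_cons, List.getLast?_eq_some_getLast hV] at hl
  simp only [Option.getD_some, Option.some.injEq] at hl
  have e2 : V = V.dropLast ++ [f] := by
    rw [← hl]
    exact (List.dropLast_append_getLast hV).symm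
  set W := V.dropLast with hW
  have hc : List.IsChain (fun a b => NA.sc s a = b) s.2 := by
    have h1 := chain_fp hn.2.1
    rw [List.isChain_iff_getElem] at h1 ⊢
    intro i hi
    rw [NA.sc_B hg.wf.nd (List.getElem_mem _)]
    exact h1 i hi
  have hc2 : List.IsChain (fun a b => NA.sc s a = b) (v :: (W ++ [f])) := by
    refine chain_mid hc ?_
    rw [e, e2]
    exact ⟨U, [], by simp⟩
  have hnd := hn.2.1
  rw [e, e2] at hnd
  refine ⟨W.length + 1, ?_, ⟨hvf, hvf⟩, To.of_chain hc2 (fun z hz => ?_)⟩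
  · rw [e, e2]
    simp
    omega
  · have : z ≠ f := by
      rintro rfl
      have h3 := (List.nodup_append.1 hnd).2.1
      rw [List.nodup_cons] at h3
      exact (List.nodup_append.1 h3.2).2.2 z hz z (by simp) rfl
    exact ⟨this, this⟩

/-- the path of `A` between the two tokens of a letter which does not contain the token `p f`. -/
theorem to_arc (hg : GP p f s) {x : Ω} (hx : NA.Red p s x) :
    ∃ a, (a = x ∨ a = p x) ∧ ∃ n ≤ s.1.length, To (NA.sc s) (p a) (p f) n (NA.sc s a) := by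
  have hw := hg.wf
  have hp := hw.inv
  have hn := List.nodup_append.1 hw.nd
  obtain ⟨U, V, e⟩ := List.append_of_mem hg.fA
  have hr : s.1 ~r p f :: (V ++ U) := by
    rw [e]
    have := List.isRotated_append (l := U) (l' := p f :: V)
    simpa using this
  have hnd : (p f :: (V ++ U)).Nodup := hr.nodup_iff.1 hn.1
  have hc : List.IsChain (fun a b => NA.sc s a = b) (p f :: (V ++ U)) := by
    have h1 := chain_fp hnd
    rw [List.isChain_iff_getElem] at h1 ⊢
    intro i hi
    rw [NA.sc_A hw.nd (hr.mem_iff.2 (List.getElem_mem _)), List.formPerm_eq_of_isRotated hn.1 hr]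
    exact h1 i hi
  have hlen : (p f :: (V ++ U)).length = s.1.length := hr.perm.length_eq.symm
  set W := V ++ U with hW
  have hxf : x ≠ p f := by
    rintro rfl
    have := hx.2
    rw [hp] at this
    exact dj hw this (List.mem_of_getLast? hg.last)
  have hxf' : p x ≠ p f := by
    intro h1
    have : x = f := by rw [← hp x, h1, hp]
    rw [this] at hx
    exact dj hw hx.1 (List.mem_of_getLast? hg.last)
  have hxW : x ∈ W := by
    have := hr.mem_iff.1 hx.1
    rcases List.mem_cons.1 this with h1 | h1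
    · exact (hxf h1).elim
    · exact h1
  have hxW' : p x ∈ W := by
    have := hr.mem_iff.1 hx.2
    rcases List.mem_cons.1 this with h1 | h1
    · exact (hxf' h1).elim
    · exact h1
  -- the order
  obtain ⟨a, ha, W1, W3, W4, e2⟩ : ∃ a, (a = x ∨ a = p x) ∧ ∃ W1 W3 W4, W = W1 ++ a :: (W3 ++ p a :: W4) := by
    obtain ⟨W1, W2, e1⟩ := List.append_of_mem hxW
    rw [e1] at hxW'
    rcases List.mem_append.1 hxW' with h1 | h1
    · obtain ⟨W3, W4, e3⟩ := List.append_of_mem h1
      refine ⟨p x, Or.inr rfl, W3, W4, W2, ?_⟩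
      rw [e1, e3, hp]
      simp
    · rcases List.mem_cons.1 h1 with h2 | h2
      · exact (hw.ne x h2).elim
      · obtain ⟨W3, W4, e3⟩ := List.append_of_mem h2
        refine ⟨x, Or.inl rfl, W1, W3, W4, ?_⟩
        rw [e1, e3]
  refine ⟨a, ha, W3.length, ?_, ?_⟩
  · rw [← hlen, e2]
    simp
    omega
  · refine To.of_chain (chain_mid hc ?_) (fun v hv => ⟨?_, ?_⟩)
    · rw [e2]
      exact ⟨p f :: W1, W4, by simp⟩
    · rintro rfl
      rw [e2] at hnd
      have h3 := (List.nodup_append.1 (List.nodup_cons.1 hnd).2).2.1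
      exact (List.nodup_append.1 (List.nodup_cons.1 h3).2).2.2 _ hv _ (by simp) rfl
    · rintro rfl
      rw [e2] at hnd
      apply (List.nodup_cons.1 hnd).1
      simp [hv]

end NP
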