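import Pool.Agent.helper3.NP.Step

/-!
# MP_c8d30a, exponent 12, Part II.4: the letter walk
-/

set_option autoImplicit false

namespace NP

open NTH Equiv NTS
open Pool.Agent.helper32.RH (RTs)

variable {Ω : Type} [DecidableEq Ω] {p : Ω → Ω} {s s' : St Ω} {f : Ω}

theorem rts_refl (hg : GP p f s) : RTs p 0 s s := by
  obtain ⟨r, hr⟩ := hg.red
  obtain ⟨b, hb⟩ := hg.blu
  exact Pool.Agent.helper32.RH.RTs.refl ⟨r, hr.1, hr.2⟩ ⟨b, hb.1, hb.2⟩

/-- the result of a walk of `n` steps which starts at the coupled pair `u, v` and ends at the coupled pair `a, b`. -/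
structure WR (p : Ω → Ω) (f : Ω) (s : St Ω) (u v : Ω) (n : ℕ) (s' : St Ω) (a b : Ω) : Prop where
  rts : RTs p (6 * n) s s'
  gp : GP p f s'
  perm : (s'.1 ++ s'.2).Perm (s.1 ++ s.2)
  d2 : D2 p s' = D2 p s
  mu : NA.mu p s' = NA.mu p s
  cp : Cp p s' a b
  fr : Fr p s' a
  cd : ∀ z, Cd p s' z ↔ (Cd p s z ∧ z ≠ u ∧ z ≠ p u) ∨ z = a ∨ z = p a
  md : ∀ z, MD p s' z ↔ (MD p s z ∧ z ≠ v ∧ z ≠ NA.mu p s v) ∨ z = b ∨ z = NA.mu p s b
  ot : ∀ w, Cd p s w → w ≠ u → w ≠ p u → NA.pd s' w = NA.pd s w ∧ (w ∈ s'.1 ↔ w ∈ s.1)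

/-- the position `a, b` is not a stop (in the language of the state `s` before the walk). -/
structure NS (p : Ω → Ω) (f : Ω) (s : St Ω) (u v a b : Ω) : Prop where
  md : ¬ (MD p s a ∧ a ≠ v ∧ a ≠ NA.mu p s v)
  cd : ¬ (Cd p s b ∧ b ≠ u ∧ b ≠ p u)
  ab : a ≠ b
  ab' : a ≠ NA.mu p s b
  pab : b ≠ p a
  bf : b ≠ f
  bf' : b ≠ p f

/-- **the letter walk.** -/
theorem walk {u v : Ω} (hg : GP p f s) (hc : Cp p s u v) (hf : Fr p s u) (N : ℕ) :
    ∃ n ≤ N, ∃ s', WR p f s u v n s' (wk p (NA.mu p s) n (u, v)).1 (wk p (NA.mu p s) n (u, v)).2 ∧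
      (∀ k < n, NS p f s u v (wk p (NA.mu p s) k (u, v)).1 (wk p (NA.mu p s) k (u, v)).2) ∧
      (n = N ∨ Stop p f s' (wk p (NA.mu p s) n (u, v)).1 (wk p (NA.mu p s) n (u, v)).2) := by
  induction N generalizing s u v with
  | zero =>
    refine ⟨0, le_refl _, s, ⟨rts_refl hg, hg, List.Perm.refl _, rfl, rfl, hc, hf, ?_, ?_, fun w _ _ _ => ⟨rfl, Iff.rfl⟩⟩, fun k hk => by omega, Or.inl rfl⟩
    · intro z
      show _ ↔ _ ∨ z = u ∨ z = p u
      constructor
      · intro h
        by_cases h1 : z = u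
        · exact Or.inr (Or.inl h1)
        by_cases h2 : z = p u
        · exact Or.inr (Or.inr h2)
        exact Or.inl ⟨h, h1, h2⟩
      · rintro (h | rfl | rfl)
        · exact h.1
        · exact hc.1
        · exact hc.1.pr hg.wf
    · intro z
      show _ ↔ _ ∨ z = v ∨ z = NA.mu p s v
      constructor
      · intro h
        by_cases h1 : z = v
        · exact Or.inr (Or.inl h1)
        by_cases h2 : z = NA.mu p s v
        · exact Or.inr (Or.inr h2)
        exact Or.inl ⟨h, h1, h2⟩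
      · rintro (h | rfl | rfl)
        · exact h.1
        · exact hc.md hg.wf
        · exact (hc.md hg.wf).mu hg.wf
  | succ N ih =>
    by_cases hS : Stop p f s u v
    · refine ⟨0, by omega, s, ⟨rts_refl hg, hg, List.Perm.refl _, rfl, rfl, hc, hf, ?_, ?_, fun w _ _ _ => ⟨rfl, Iff.rfl⟩⟩, fun k hk => by omega, Or.inr hS⟩
      · intro z
        show _ ↔ _ ∨ z = u ∨ z = p u
        constructor
        · intro h
          by_cases h1 : z = u
          · exact Or.inr (Or.inl h1)
          by_cases h2 : z = p u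
          · exact Or.inr (Or.inr h2)
          exact Or.inl ⟨h, h1, h2⟩
        · rintro (h | rfl | rfl)
          · exact h.1
          · exact hc.1
          · exact hc.1.pr hg.wf
      · intro z
        show _ ↔ _ ∨ z = v ∨ z = NA.mu p s v
        constructor
        · intro h
          by_cases h1 : z = v
          · exact Or.inr (Or.inl h1)
          by_cases h2 : z = NA.mu p s v
          · exact Or.inr (Or.inr h2)
          exact Or.inl ⟨h, h1, h2⟩
        · rintro (h | rfl | rfl)
          · exact h.1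
          · exact hc.md hg.wf
          · exact (hc.md hg.wf).mu hg.wf
    · obtain ⟨s1, r1, w1⟩ := wstep hg hc hf hS
      have hw := hg.wf
      have hp := hw.inv
      have hc1 := w1.cp hw
      obtain ⟨n, hn, s', h1, h2, h3⟩ := ih w1.gp hc1 w1.fr
      rw [w1.mu] at h1 h2 h3
      have hwk : ∀ k, wk p (NA.mu p s) k (p v, NA.mu p s u) = wk p (NA.mu p s) (k + 1) (u, v) := fun k => rfl
      simp only [hwk] at h1 h2 h3
      unfold Stop at hS
      push Not at hS
      obtain ⟨k1, k2, k3, k4⟩ := hS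
      have m1 : ¬ MD p s u := fun h => k1 ((md_iff hw).1 h)
      have m2 : ¬ MD p s (NA.mu p s u) := fun h => m1 ((md_mu_iff hw).1 h)
      have c2 : ¬ Cd p s (p v) := fun h => k2 ((Cd.p_iff hw).1 h)
      have hmm := NA.mu_mu hp s
      have cdk : ∀ z, (Cd p s1 z ∧ z ≠ p v ∧ z ≠ p (p v)) ↔ (Cd p s z ∧ z ≠ u ∧ z ≠ p u) := by
        intro z
        rw [w1.cd, hp]
        constructor
        · rintro ⟨h4 | h4 | h4, h5, h6⟩
          · exact h4
          · exact absurd h4 h6
          · exact absurd h4 h5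
        · intro h4
          exact ⟨Or.inl h4, fun e => c2 (e ▸ h4.1), fun e => k2 (e ▸ h4.1)⟩
      have mdk : ∀ z, (MD p s1 z ∧ z ≠ NA.mu p s u ∧ z ≠ NA.mu p s (NA.mu p s u)) ↔ (MD p s z ∧ z ≠ v ∧ z ≠ NA.mu p s v) := by
        intro z
        rw [w1.md, hmm]
        constructor
        · rintro ⟨h4 | h4 | h4, h5, h6⟩
          · exact h4
          · exact absurd h4 h6
          · exact absurd h4 h5
        · intro h4
          exact ⟨Or.inl h4, fun e => m2 (e ▸ h4.1), fun e => m1 (e ▸ h4.1)⟩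
      refine ⟨n + 1, by omega, s', ⟨?_, h1.gp, h1.perm.trans w1.perm, h1.d2.trans w1.d2, h1.mu.trans w1.mu, h1.cp, h1.fr, ?_, ?_, ?_⟩, ?_, ?_⟩
      · have := Pool.Agent.helper32.RH.RTs.trans r1 h1.rts w1.perm
        have e : 6 + 6 * n = 6 * (n + 1) := by ring
        rwa [e] at this
      · intro z
        rw [h1.cd, cdk]
      · intro z
        have := h1.md z
        rw [w1.mu] at this
        rw [this, mdk]
      · intro w h4 h5 h6
        have h7 : Cd p s1 w := (w1.cd w).2 (Or.inl ⟨h4, h5, h6⟩)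
        have h8 : w ≠ v := fun e => k2 (e ▸ h4)
        have h9 := h1.ot w h7 (fun e => c2 (e ▸ h4)) (by rw [hp]; exact h8)
        refine ⟨h9.1.trans (w1.ot w h4 h5 h6), h9.2.trans ?_⟩
        rw [w1.m1]
        constructor
        · rintro (h10 | ⟨h10 | h10, _⟩)
          · exact h10.1
          · exact absurd h10 h5
          · exact absurd h10 h8
        · intro h10
          exact Or.inl ⟨h10, h5, h8⟩
      · intro k hk
        cases k with
        | zero =>
          show NS p f s u v u v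
          refine ⟨fun h => m1 h.1, fun h => k2 h.1, fun e => k2 (e ▸ hc.1), ?_, fun e => k2 (e ▸ hc.1.pr hw), k3, k4⟩
          intro e
          exact m1 (e ▸ (hc.md hw).mu hw)
        | succ k =>
          have h4 := h2 k (by omega)
          refine ⟨fun h => h4.md ?_, fun h => h4.cd ?_, h4.ab, ?_, h4.pab, h4.bf, h4.bf'⟩
          · rw [w1.mu]
            exact (mdk _).2 h
          · exact (cdk _).2 h
          · have := h4.ab'
            rwa [w1.mu] at this
      · rcases h3 with h3 | h3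
        · left
          omega
        · exact Or.inr h3

end NP
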